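import Pool.Agent.Work.MP_25cd3b_gt.NG.Stmts

set_option autoImplicit false
set_option maxSynthPendingDepth 3

/-!
# MP_25cd3b_gt: item Alg of block NG, symmetries of the curvature.  Author: helper73
-/

open MeasureTheory Set Filter Topology
open scoped ContDiff ENNReal

namespace Pool.Agent.MLS

namespace INgAlg

theorem line {n : ℕ} (x v : E n) : HasDerivAt (fun t : ℝ => x + t • v) v 0 := by
  simpa using ((hasDerivAt_id (0 : ℝ)).smul_const v).const_add x

theorem anti {n : ℕ} (g : Form n) (x u v w : E n) : Rm g x u v w = -Rm g x v u w := by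
  unfold Rm
  abel

/-- derivative of `y ↦ Dg(y)(u)(w, w)` in the direction `v` -/
theorem dl {n : ℕ} (g : Form n) (x u v w : E n) :
    HasDerivAt (fun t : ℝ => fderiv ℝ g.val (x + t • v) u w w)
      (fderiv ℝ (fderiv ℝ g.val) x v u w w) 0 := by
  have hd : Differentiable ℝ (fderiv ℝ g.val) :=
    (g.smooth.fderiv_right (m := 1) (by norm_cast)).differentiable (by norm_num)
  have h0 : HasFDerivAt (fderiv ℝ g.val) (fderiv ℝ (fderiv ℝ g.val) x) (x + (0 : ℝ) • v) := by
    simpa using (hd x).hasFDerivAt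
  have h1 : HasDerivAt (fun t : ℝ => fderiv ℝ g.val (x + t • v))
      (fderiv ℝ (fderiv ℝ g.val) x v) 0 := h0.comp_hasDerivAt (0 : ℝ) (line x v)
  have h2 := ((h1.clm_apply (hasDerivAt_const (0 : ℝ) u)).clm_apply
    (hasDerivAt_const (0 : ℝ) w)).clm_apply (hasDerivAt_const (0 : ℝ) w)
  simpa using h2

theorem dabs {n : ℕ} (A : E n → E n →L[ℝ] E n →L[ℝ] E n) (B : E n → E n →L[ℝ] E n →L[ℝ] ℝ)
    (hd : Differentiable ℝ A) (hg : Differentiable ℝ B) (x u v w : E n) :
    HasDerivAt (fun t : ℝ => B (x + t • v) (A (x + t • v) u w) w)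
      (fderiv ℝ B x v (A x u w) w + B x (fderiv ℝ A x v u w) w) 0 := by
  have h0 : HasFDerivAt A (fderiv ℝ A x) (x + (0 : ℝ) • v) := by
    simpa using (hd x).hasFDerivAt
  have h0' : HasFDerivAt B (fderiv ℝ B x) (x + (0 : ℝ) • v) := by
    simpa using (hg x).hasFDerivAt
  have h1 : HasDerivAt (fun t : ℝ => A (x + t • v)) (fderiv ℝ A x v) 0 :=
    h0.comp_hasDerivAt (0 : ℝ) (line x v)
  have h1' : HasDerivAt (fun t : ℝ => B (x + t • v)) (fderiv ℝ B x v) 0 :=
    h0'.comp_hasDerivAt (0 : ℝ) (line x v)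
  have h2 := (h1.clm_apply (hasDerivAt_const (0 : ℝ) u)).clm_apply
    (hasDerivAt_const (0 : ℝ) w)
  have h3 := (h1'.clm_apply h2).clm_apply (hasDerivAt_const (0 : ℝ) w)
  simpa using h3

/-- derivative of `y ↦ g(Γ(u, w), w)` in the direction `v` -/
theorem dr {n : ℕ} (g : Form n) (hG : ContDiff ℝ ∞ (Ga g)) (x u v w : E n) :
    HasDerivAt (fun t : ℝ => g.val (x + t • v) (Ga g (x + t • v) u w) w)
      (fderiv ℝ g.val x v (Ga g x u w) w + g.val x (fderiv ℝ (Ga g) x v u w) w) 0 :=
  dabs (Ga g) g.val (hG.differentiable (by simp)) (g.smooth.differentiable (by simp)) x u v w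

theorem sym2 {n : ℕ} (g : Form n) (x u v : E n) :
    fderiv ℝ (fderiv ℝ g.val) x u v = fderiv ℝ (fderiv ℝ g.val) x v u := by
  have h : IsSymmSndFDerivAt ℝ g.val x :=
    g.smooth.contDiffAt.isSymmSndFDerivAt (by
      rw [minSmoothness_of_isRCLikeNormedField]; exact WithTop.coe_le_coe.2 (le_top : (2 : ℕ∞) ≤ ⊤))
  exact h u v

theorem main {n : ℕ} (g : Form n) (hG : ContDiff ℝ ∞ (Ga g))
    (hm : ∀ x u v w, fderiv ℝ g.val x u v w = g.val x (Ga g x u v) w + g.val x v (Ga g x u w))
    (x u v w : E n) :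
    fderiv ℝ (fderiv ℝ g.val) x v u w w =
      2 * (g.val x (Ga g x v (Ga g x u w)) w + g.val x (Ga g x u w) (Ga g x v w) +
        g.val x (fderiv ℝ (Ga g) x v u w) w) := by
  have h1 := dl g x u v w
  have h2 := (dr g hG x u v w).const_mul 2
  have h3 : (fun t : ℝ => fderiv ℝ g.val (x + t • v) u w w) =
      fun t : ℝ => 2 * g.val (x + t • v) (Ga g (x + t • v) u w) w := by
    funext t
    rw [hm, g.symm _ w (Ga g (x + t • v) u w)]
    ring
  rw [h3] at h1
  rw [h1.unique h2, hm x v (Ga g x u w) w]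

end INgAlg

open INgAlg

theorem pr_NgAlg (h1 : NcGa) (h2 : NgMet) : NgAlg := by
  intro n g hg
  obtain ⟨hG, -, -, -⟩ := h1 n g hg
  obtain ⟨hm, -, -⟩ := h2 n g hg
  refine ⟨anti g, ?_, ?_⟩
  · intro x u v w
    have e1 := main g hG hm x u v w
    have e2 := main g hG hm x v u w
    have e3 := sym2 g x u v
    rw [e3] at e2
    rw [g.symm x (Ga g x v w) (Ga g x u w)] at e2
    have e4 : g.val x (Rm g x u v w) w =
        g.val x (fderiv ℝ (Ga g) x u v w) w - g.val x (fderiv ℝ (Ga g) x v u w) w +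
          g.val x (Ga g x u (Ga g x v w)) w - g.val x (Ga g x v (Ga g x u w)) w := by
      unfold Rm
      simp only [map_sub, map_add, sub_apply, add_apply]
    rw [e4]
    linarith
  · have cG : Continuous (Ga g) := hG.continuous
    have cdG : Continuous (fderiv ℝ (Ga g)) := hG.continuous_fderiv (by simp)
    have cg : Continuous g.val := g.smooth.continuous
    have c1 : Continuous (fun q : E n × E n × E n => q.1) := continuous_fst
    have c2 : Continuous (fun q : E n × E n × E n => q.2.1) := continuous_fst.comp continuous_snd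
    have c3 : Continuous (fun q : E n × E n × E n => q.2.2) := continuous_snd.comp continuous_snd
    have a1 := (((cdG.comp c1).clm_apply c2).clm_apply c3).clm_apply c3
    have a2 := (((cdG.comp c1).clm_apply c3).clm_apply c2).clm_apply c3
    have a3 := ((cG.comp c1).clm_apply c2).clm_apply (((cG.comp c1).clm_apply c3).clm_apply c3)
    have a4 := ((cG.comp c1).clm_apply c3).clm_apply (((cG.comp c1).clm_apply c2).clm_apply c3)
    have a5 := ((a1.sub a2).add a3).sub a4
    exact ((cg.comp c1).clm_apply a5).clm_apply c2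

end Pool.Agent.MLS
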