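import Pool.Agent.Work.MP_25cd3b_gt.NG.Defs
import Pool.Agent.Work.MP_25cd3b_gt.NC.Stmts

set_option autoImplicit false

/-!
# Negative curvature: no conjugate points, and Gromov hyperbolicity.  Statements with proofs

Notation of the comments: `Γ = Ga g`, `D X = cov g c X`, `|X|` and `g(X, Y)` at the point of the
curve, `ex = expo φ g p`.
-/

open MeasureTheory Set Filter Topology
open scoped ContDiff ENNReal
open Pool.Agent.Work.MP_c9f990_an.Al (IsFlow)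

namespace Pool.Agent.MLS

/-- Product rule.  Chain rule for `g.val (c t) (X t) (Y t)`; the derivative is
`Dg(c')(X, Y) + g(X', Y) + g(X, Y')`, and `Dg(u)(v, w) = g(Γ(u, v), w) + g(v, Γ(u, w))` by the
formula of Koszul in `NcGa` (add the two formulas, use the symmetries).  The second part is the
geodesic equation (`NcGeo`). -/
def NgMet : Prop := ∀ (n : ℕ) (g : Form n), Riem g →
  (∀ x u v w, fderiv ℝ g.val x u v w = g.val x (Ga g x u v) w + g.val x v (Ga g x u w)) ∧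
  (∀ (c X Y : ℝ → E n) (t : ℝ), DifferentiableAt ℝ c t → DifferentiableAt ℝ X t →
    DifferentiableAt ℝ Y t → HasDerivAt (fun s => g.val (c s) (X s) (Y s))
      (g.val (c t) (cov g c X t) (Y t) + g.val (c t) (X t) (cov g c Y t)) t) ∧
  (∀ c : ℝ → E n, IsGeo g c → ∀ t, cov g c (deriv c) t = 0)

/-- Symmetries of the curvature.  `Rm` is trilinear and antisymmetric in the first two arguments (by
definition).  Differentiate the identity `Dg(u)(w, w) = 2 g(Γ(u, w), w)` (`NgMet`) in the direction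
`v` (with `u, w` fixed):
`D²g(v, u)(w, w) = 2 Dg(v)(Γ(u, w), w) + 2 g(DΓ(v)(u, w), w)
= 2 g(Γ(v, Γ(u, w)), w) + 2 g(Γ(u, w), Γ(v, w)) + 2 g(DΓ(v)(u, w), w)`.
The left side is symmetric in `u, v` (second derivative of the smooth `g.val`); subtract the same
with `u, v` exchanged: `g(Rm u v w, w) = 0`.  Continuity: `Ga g` is smooth. -/
def NgAlg : Prop := ∀ (n : ℕ) (g : Form n), Riem g →
  (∀ x u v w, Rm g x u v w = -Rm g x v u w) ∧ (∀ x u v w, g.val x (Rm g x u v w) w = 0) ∧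
  Continuous (fun q : E n × E n × E n => Kn g q.1 q.2.1 q.2.2)

/-- Naturality of the Christoffel symbols.  Differentiate `g(F x)(DF v, DF w) = g(x)(v, w)` in the
direction `u`: `Dg(F x)(DF u)(DF v, DF w) + g(D²F(u, v), DF w) + g(DF v, D²F(u, w)) =
Dg(x)(u)(v, w)`.  Insert this three times in the formula of Koszul (`NcGa`) for
`2 g(x)(Γ(u, v), w)`; `D²F` is symmetric, and the result is
`2 g(F x)(Γ(DF u, DF v), DF w) + 2 g(F x)(D²F(u, v), DF w)`; the left side is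
`2 g(F x)(DF Γ(u, v), DF w)`.  `DF x` is injective (`g(F x)(DF v, DF v) = g(x)(v, v)`), so
surjective, and `g(F x)` is definite. -/
def NgGaN : Prop := ∀ (n : ℕ) (g : Form n) (F : E n → E n), Riem g → ContDiff ℝ ∞ F →
  (∀ x u v, g.val (F x) (fderiv ℝ F x u) (fderiv ℝ F x v) = g.val x u v) → ∀ x u v,
  fderiv ℝ F x (Ga g x u v) =
    fderiv ℝ (fderiv ℝ F) x u v + Ga g (F x) (fderiv ℝ F x u) (fderiv ℝ F x v)

/-- Naturality of the curvature.  Differentiate `NgGaN` (for `Γ(v, w)`) in the direction `u`: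
`D²F(u, Γ(v, w)) + DF(DΓ(u)(v, w)) = D³F(u, v, w) + DΓ(DF u)(DF v, DF w) + Γ(D²F(u, v), DF w) +
Γ(DF v, D²F(u, w))`, and by `NgGaN` twice `D²F(u, Γ(v, w)) = DF Γ(u, Γ(v, w)) -
Γ(DF u, D²F(v, w)) - Γ(DF u, Γ(DF v, DF w))`.  Subtract the same with `u, v` exchanged: the terms
`D³F(u, v, w)`, `Γ(D²F(u, v), DF w)` and `Γ(DF v, D²F(u, w)) + Γ(DF u, D²F(v, w))` are symmetric and
cancel. -/
def NgRN : Prop := ∀ (n : ℕ) (g : Form n) (F : E n → E n), Riem g → ContDiff ℝ ∞ F →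
  (∀ x u v, g.val (F x) (fderiv ℝ F x u) (fderiv ℝ F x v) = g.val x u v) → ∀ x u v w,
  fderiv ℝ F x (Rm g x u v w) =
    Rm g (F x) (fderiv ℝ F x u) (fderiv ℝ F x v) (fderiv ℝ F x w)

/-- Uniform bound.  By `NgRN` and invariance `Kn g (a x) (D u) (D v) = Kn g x u v` and
`Ar g (a x) (D u) (D v) = Ar g x u v`, `D = dac a x`, so it is enough to consider `x ∈ K`, `K` compact
with `G K = R^n` (every vector at `x` is moved to a vector at `a x ∈ K`).  The set of the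
`(x, u, v)`, `x ∈ K`, `g(u, u) = g(v, v) = 1`, `g(u, v) = 0` is compact (`StBnd`), and `Kn < 0` there
(such `u, v` are independent), so `Kn ≤ -κ^2` with `κ > 0` there (if it is empty take `κ = 1`).  For
general `u, v`: if `Ar = 0` they are dependent and `Kn = 0` (antisymmetries of `NgAlg`).
Otherwise let `u₁ = u / |u|`, `v₁ = (v - g(v, u₁) u₁) / |...|`; by the antisymmetries
`Kn (u, v + r u) = Kn (u, v)` and `Kn (s u, t v) = s² t² Kn (u, v)`, and `Ar` has the same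
properties; so `Kn (u, v) = Ar (u, v) Kn (u₁, v₁)`. -/
def NgSec : Prop := ∀ (n : ℕ) (G : Type) [Group G] [MulAction G (E n)], Cocompact n G →
  ∀ g : Form n, Riem g → Inv G g → NegSec g → ∃ κ : ℝ, 0 < κ ∧ CurvLe g κ

/-- Nonpositive curvature: no conjugate points.  `q = |J|²`, `q' = 2 g(D J, J)`,
`q'' = 2 |D J|² + 2 g(D² J, J) = 2 |D J|² - 2 Kn (J, c') ≥ 0` (`NgMet`).  So `q ≥ 0` is convex and
vanishes at `a, b`, hence on the interval between; so `J = 0` there and `J' = 0` at an interior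
point.  `IsJac` is a linear equation `J'' = A(t) J + B(t) J'` with continuous coefficients (expand
`cov`); uniqueness (for `(J, J')`, Mathlib `ODE_solution_unique`, or Gronwall on compact intervals)
gives `J = 0`. -/
def NgNoC : Prop := ∀ (n : ℕ) (g : Form n), Riem g → CurvLe g 0 → NoConj g

/-- Comparison for Jacobi fields.  Let `l > 0` be the speed, `k = κ l`, `α = g(J, c')(1)`.
`g(J, c')'' = g(D² J, c') = - g(R(J, c') c', c') = 0` (`NgAlg`), so `g(J, c')(s) = α s` and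
`g(D J, c') = α`.  Put `N2 = |J|² - s² α² / l²` (the square of the normal part).  For `s > 0` let
`P(s) = g(D J, J) - s α² / l² - k coth(k s) N2`.  Then
`P' = |D J|² - Kn (J, c') - α² / l² - (k coth(k s) N2)'`, and by `CurvLe`
`- Kn (J, c') ≥ κ² (|J|² l² - s² α²) = k² N2`.  With `m2 = |D J|² - α² / l²` (`≥ 0`: the square of the
normal part of `D J`) and `b = g(D J, J) - s α² / l²` we have `N2' = 2 b`, `b² ≤ m2 N2`
(Cauchy-Schwarz for the normal parts `J - (s α / l²) c'` and `D J - (α / l²) c'`) and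
`(k coth(k s))' = k² - k² coth²(k s)`, so `P' ≥ m2 + k² N2 - 2 k coth b + (k² coth² - k²) N2
= m2 - 2 k coth b + k² coth² N2 ≥ 0`.  As `s` tends to `0` from above, `P` tends to `0` (`J 0 = 0`,
`N2 = O(s²)`, `s coth(k s)` bounded).  So `P 1 ≥ 0`.  The last part (any speed):
`g(D J, J)' = |D J|² - Kn (J, c') ≥ 0` and `g(D J, J)(0) = 0`. -/
def NgJc : Prop := ∀ (n : ℕ) (g : Form n) (κ : ℝ), Riem g → 0 < κ → CurvLe g κ →
  ∀ c J : ℝ → E n, IsGeo g c → IsJac g c J → J 0 = 0 →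
  (∀ l : ℝ, 0 < l → (∀ t, g.val (c t) (deriv c t) (deriv c t) = l ^ 2) →
    g.val (c 1) (J 1) (deriv c 1) ^ 2 / l ^ 2 +
      κ * l * (Real.cosh (κ * l) / Real.sinh (κ * l)) *
        (g.val (c 1) (J 1) (J 1) - g.val (c 1) (J 1) (deriv c 1) ^ 2 / l ^ 2) ≤
      g.val (c 1) (cov g c J 1) (J 1)) ∧
  0 ≤ g.val (c 1) (cov g c J 1) (J 1)

/-- First and second variation of half the square of the distance from `y` to a geodesic `σ`.
`ex = expo φ g y` is a `C^1` bijection with invertible derivative, so its inverse is `C^1` and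
`w t = ex⁻¹ (σ t)` is `C^1` (inverse function theorem, or `NcLoc`: the derivative of a lift).  Let
`P t = op g y (w t)`, `z_t = (y, P t)`, `γ_t s = (φ s z_t).1`.  `e t = Hm g z_t` (`StOp`).
`J s = (M s z_t (0, P' t)).1` is Jacobi along `γ_t` (`NcLin`, `NcCov`, `StGeo1`), `J 0 = 0`,
`J 1 = ∂_t (φ 1 z_t).1 = σ' t`.  First variation: the function `f s = inner (φ s z_t).2 (J s)` has
`f' = DH(z_s) δ_s = DH(z_t) (0, P' t)`, constant, as in `NcGauss`; so `e' t = DH(z_t)(0, P' t) = f 1 =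
inner (φ 1 z_t).2 (σ' t) = g(σ t)(vel g (φ 1 z_t), σ' t)`.  Second variation: let
`V t = vel g (φ 1 z_t)` (`C^1` in `t`).  `e1 t = g(σ)(V, σ')` has the derivative
`g(D_t V, σ') + g(V, D_t σ') = g(D_t V, σ')` (product rule `NgMet` for the curve `σ`; `σ` is a
geodesic), `D_t V = V' + Γ(σ', V)`, and `V' t = Dvel(φ 1 z_t)(M 1 z_t (0, P' t)) = deriv J 1`
(`NcLin`); so `D_t V = J' 1 + Γ(J 1, γ' 1) = cov g γ_t J 1`. -/
def NgVar : Prop := ∀ (n : ℕ) (g : Form n) (φ : ℝ → W n → W n) (M : ℝ → W n → W n →L[ℝ] W n),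
  Riem g → IsFlow (XH (Hm g)) φ M → ∀ y : E n, (∀ v w, fderiv ℝ (expo φ g y) v w = 0 → w = 0) →
  Function.Bijective (expo φ g y) → ∀ σ : ℝ → E n, IsGeo g σ →
  ∃ (w : ℝ → E n) (e1 e2 : ℝ → ℝ), (∀ t, expo φ g y (w t) = σ t) ∧
    (∀ t, HasDerivAt (fun s => 1 / 2 * g.val y (w s) (w s)) (e1 t) t) ∧
    (∀ t, HasDerivAt e1 (e2 t) t) ∧
    (∀ t, e1 t = g.val (σ t) (vel g (φ 1 (y, op g y (w t)))) (deriv σ t)) ∧
    ∀ t, ∃ J : ℝ → E n, IsJac g (fun s => (φ s (y, op g y (w t))).1) J ∧ J 0 = 0 ∧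
      J 1 = deriv σ t ∧
      e2 t = g.val (σ t) (cov g (fun s => (φ s (y, op g y (w t))).1) J 1) (J 1)

/-- Reversal.  `c s = expo φ g m ((1 - s) V)` is a geodesic (time reversal and scaling of
`r ↦ (φ r (m, op g m V)).1`, `NcExp`, `StGeo1`) from `y` to `m` with `c' 1 = - V`.  By `NcGx`
`m = c 1 = expo φ g y (c' 0)`, so `c' 0 = w` (injectivity), and `(c 1, op (c' 1)) =
φ 1 (y, op (c' 0))`, so `vel g (φ 1 (y, op w)) = c' 1 = - V` (`StOp`). -/
def NgRev : Prop := ∀ (n : ℕ) (g : Form n) (φ : ℝ → W n → W n) (M : ℝ → W n → W n →L[ℝ] W n),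
  Riem g → IsFlow (XH (Hm g)) φ M → ∀ m V w : E n,
  Function.Injective (expo φ g (expo φ g m V)) → expo φ g (expo φ g m V) w = m →
  vel g (φ 1 (expo φ g m V, op g (expo φ g m V) w)) = -V

/-- Convexity.  `e1 ≥ 0` for `t ≥ 0` (`e2 ≥ 0`, `e1 0 ≥ 0`), so `e t ≥ e 0 > 0` for `t ≥ 0`.  Let
`l t = (2 e t)^(1/2)`, `h t = cosh (κ l t)`: `l' = e1 / l`, `h' = κ sinh(κ l) l'`,
`h'' = κ² cosh(κ l) l'² + κ sinh(κ l) (e2 - l'²) / l ≥ κ² cosh(κ l) l'² + κ sinh(κ l) κ coth(κ l)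
(1 - l'²) = κ² h`.  So `D = h' cosh(κ t) - κ h sinh(κ t)` has `D' = (h'' - κ² h) cosh(κ t) ≥ 0`,
`D 0 ≥ 0`, so `(h / cosh(κ t))' = D / cosh² ≥ 0` and `h a ≥ h 0 cosh(κ a)`. -/
def NgOde : Prop := ∀ (κ a : ℝ) (e e1 e2 : ℝ → ℝ), 0 < κ → 0 ≤ a →
  (∀ t, HasDerivAt e (e1 t) t) → (∀ t, HasDerivAt e1 (e2 t) t) → 0 < e 0 → 0 ≤ e1 0 →
  (∀ t, 0 ≤ e2 t) →
  (∀ t, 0 < e t → e1 t ^ 2 / (2 * e t) +
    κ * Real.sqrt (2 * e t) *
      (Real.cosh (κ * Real.sqrt (2 * e t)) / Real.sinh (κ * Real.sqrt (2 * e t))) *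
      (1 - e1 t ^ 2 / (2 * e t)) ≤ e2 t) →
  Real.cosh (κ * Real.sqrt (2 * e 0)) * Real.cosh (κ * a) ≤ Real.cosh (κ * Real.sqrt (2 * e a))

/-- Triangles with an angle of at least `π / 2` at `m`.  `y = ex_m (b v)`, `σ t = ex_m (t u)` (a unit
speed geodesic, `NcExp`, `StGeo1`, `NcGx`); apply `NgVar` to `y, σ` and let `e t = 1/2 g y (w t)
(w t)`.  By `NcDist` (all points; `NcInj`, `NgNoC`: `CurvLe g κ` implies `CurvLe g 0` because
`Ar ≥ 0`) `gd g y (σ t) = nrm g y (w t) = (2 e t)^(1/2)`.  `gd g m y = b = gd g y m`.  If `b = 0`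
then `y = m` and the claim is an equality (`gd g m (ex_m (a u)) = a`).  If `b > 0`: `e1 0 =
g m (vel g (φ 1 (y, op w_0))) u = - b g m v u ≥ 0` (`NgRev`).  `NgJc` (with `c = γ_t`, speed
`l = (2 e t)^(1/2)`, `J 1 = σ' t` a unit vector, `γ_t' 1 = vel g (φ 1 ..)`, so
`g(J 1, γ_t' 1) = e1 t`) gives the hypotheses of `NgOde`. -/
def NgRT : Prop := ∀ (n : ℕ) (g : Form n) (φ : ℝ → W n → W n) (M : ℝ → W n → W n →L[ℝ] W n)
  (κ : ℝ), Riem g → IsFlow (XH (Hm g)) φ M → 0 < κ → CurvLe g κ → ∀ m u v : E n,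
  g.val m u u = 1 → g.val m v v = 1 → g.val m u v ≤ 0 → ∀ a b : ℝ, 0 ≤ a → 0 ≤ b →
  Real.cosh (κ * a) * Real.cosh (κ * b) ≤
    Real.cosh (κ * gd g (expo φ g m (a • u)) (expo φ g m (b • v)))

/-- The four point condition.  From `cosh s ≤ exp s`, `exp s / 2 ≤ cosh s` (`s ≥ 0`) `NgRT` gives
`gd ≥ a + b - c₀`, `c₀ = log 4 / κ` (*).  Let `x, z, y, p` be points; WLOG `x ≠ z`; let `σ` be the
unit speed geodesic with `σ 0 = x`, `σ L = z`, `L = gd x z` (`NcDist`, `NcGx`).  Let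
`m = σ t₀` be the point of `σ [0, L]` which is nearest to `p`, `e t = 1/2 gd p (σ t)²` as in `NgVar`.
Claim: `gd p x ≥ gd p m + gd m x - c₀` and `gd p z ≥ gd p m + gd m z - c₀`.  For `z`: trivial if
`t₀ = L` or `p = m`.  Otherwise `e1 t₀ ≥ 0`; `p = ex_m V`, `V = b v` with `v` a unit vector,
`b = gd m p`; `e1 t₀ = - g m V σ'` by `NgRev`, so `g m v σ' ≤ 0`; use (*) for `u = σ' t₀`,
`a = L - t₀`.  For `x`: the same with `u = - σ' t₀`.  So `A := gd p x + gd p z - gd x z ≥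
2 gd p m - 2 c₀`.  For `y`: if `y = m` or `m = x` or `m = z`, then
`gd x y = gd m x + gd m y` or `gd y z = gd m y + gd m z`; otherwise for the unit vector `v` at `m`
towards `y`, `g m v σ' ≤ 0` or `g m v (-σ') ≤ 0`, so by (*) `gd y z ≥ gd m y + gd m z - c₀` or
`gd x y ≥ gd m x + gd m y - c₀`.  In the last case `gd p x + gd p y - gd x y ≤
(gd p m + gd m x) + (gd p m + gd m y) - gd x y ≤ 2 gd p m + c₀ ≤ A + 3 c₀`, that is
`gd x z + gd p y ≤ gd p z + gd x y + 3 c₀`; the other case is symmetric. -/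
def NgPt : Prop := ∀ (n : ℕ) (g : Form n) (φ : ℝ → W n → W n) (M : ℝ → W n → W n →L[ℝ] W n)
  (κ : ℝ), Riem g → IsFlow (XH (Hm g)) φ M → 0 < κ → CurvLe g κ →
  Hyp4 (gd g) (3 * (Real.log 4 / κ))

/-- THEOREM: negatively curved closed manifolds. -/
def NgThm : Prop := ∀ (n : ℕ) (G : Type) [Group G] [MulAction G (E n)], Cocompact n G →
  ∀ g : Form n, Riem g → Inv G g → NegSec g → Minz g ∧ HypG g

end Pool.Agent.MLS
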