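import Mathlib
import Pool.Agent.Work.MP_25cd3b_gt.NG.Stmts

set_option autoImplicit false
set_option maxSynthPendingDepth 3

/-!
# Item Jc: comparison for Jacobi fields
-/

open MeasureTheory Set Filter Topology
open scoped ContDiff ENNReal
open Pool.Agent.Work.MP_c9f990_an.Al (IsFlow)

namespace Pool.Agent.MLS

namespace INgJc

lemma quad (m N b x : ℝ) (hm : 0 ≤ m) (hN : 0 ≤ N) (h : b ^ 2 ≤ m * N) :
    0 ≤ m - 2 * x * b + x ^ 2 * N := by
  have h1 : 0 ≤ m + x ^ 2 * N := by positivity
  have h2 : (2 * x * b) ^ 2 ≤ (m + x ^ 2 * N) ^ 2 := by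
    have h3 : x ^ 2 * b ^ 2 ≤ x ^ 2 * (m * N) := mul_le_mul_of_nonneg_left h (sq_nonneg x)
    nlinarith [sq_nonneg (m - x ^ 2 * N)]
  have h4 := abs_le_of_sq_le_sq h2 h1
  have h5 := (abs_le.mp h4).2
  linarith

/-- the analytic core -/
lemma core (k : ℝ) (hk : 0 < k) (N b b' m : ℝ → ℝ) (hN : ∀ s, HasDerivAt N (2 * b s) s)
    (hb : ∀ s, HasDerivAt b (b' s) s) (hN0 : N 0 = 0) (hb0 : b 0 = 0)
    (hge : ∀ s, m s + k ^ 2 * N s ≤ b' s) (hNn : ∀ s, 0 ≤ N s) (hm : ∀ s, 0 ≤ m s)
    (hCS : ∀ s, b s ^ 2 ≤ m s * N s) :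
    k * (Real.cosh k / Real.sinh k) * N 1 ≤ b 1 := by
  let P : ℝ → ℝ := fun s => b s - k * (Real.cosh (k * s) / Real.sinh (k * s)) * N s
  have hsinh : ∀ s ∈ Ioi (0 : ℝ), 0 < Real.sinh (k * s) := by
    intro s hs
    rw [Real.sinh_pos_iff]
    exact mul_pos hk hs
  have hP : ∀ s ∈ Ioi (0 : ℝ), HasDerivAt P
      (b' s - ((k * ((Real.sinh (k * s) * k * Real.sinh (k * s) -
        Real.cosh (k * s) * (Real.cosh (k * s) * k)) / Real.sinh (k * s) ^ 2)) * N s +
        k * (Real.cosh (k * s) / Real.sinh (k * s)) * (2 * b s))) s := by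
    intro s hs
    have h1 : HasDerivAt (fun s : ℝ => k * s) k s := by
      simpa using (hasDerivAt_id s).const_mul k
    have h2 := h1.cosh
    have h3 := h1.sinh
    have h4 := (h2.div h3 (hsinh s hs).ne').const_mul k
    exact (hb s).sub (h4.mul (hN s))
  have hmono : MonotoneOn P (Ioi 0) := by
    apply monotoneOn_of_deriv_nonneg (convex_Ioi 0)
    · intro s hs
      exact (hP s hs).continuousAt.continuousWithinAt
    · intro s hs
      rw [interior_Ioi] at hs
      exact (hP s hs).differentiableAt.differentiableWithinAt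
    · intro s hs
      rw [interior_Ioi] at hs
      rw [(hP s hs).deriv]
      have hS := hsinh s hs
      set S := Real.sinh (k * s) with hSd
      set C := Real.cosh (k * s) with hCd
      have h5 := quad (m s) (N s) (b s) (k * (C / S)) (hm s) (hNn s) (hCS s)
      have h6 : k * ((S * k * S - C * (C * k)) / S ^ 2) = k ^ 2 - (k * (C / S)) ^ 2 := by
        field_simp
      rw [h6]
      have h7 := hge s
      nlinarith
  -- lower bound near zero
  have hlow : ∀ s ∈ Ioc (0 : ℝ) 1, b s - Real.cosh (k * s) * (N s / s) ≤ P 1 := by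
    intro s hs
    have h8 : P s ≤ P 1 := hmono hs.1 (by simp) hs.2
    refine le_trans ?_ h8
    have hS := hsinh s hs.1
    have h9 : k * s ≤ Real.sinh (k * s) := by
      exact Real.self_le_sinh_iff.mpr (mul_pos hk hs.1).le
    have h10 : k * (Real.cosh (k * s) / Real.sinh (k * s)) * N s ≤
        Real.cosh (k * s) * (N s / s) := by
      have h11 : k / Real.sinh (k * s) ≤ 1 / s := by
        rw [div_le_div_iff₀ hS hs.1]
        linarith
      have h12 : 0 ≤ Real.cosh (k * s) * N s := mul_nonneg (Real.cosh_pos _).le (hNn s)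
      calc k * (Real.cosh (k * s) / Real.sinh (k * s)) * N s
          = (k / Real.sinh (k * s)) * (Real.cosh (k * s) * N s) := by ring
        _ ≤ (1 / s) * (Real.cosh (k * s) * N s) := mul_le_mul_of_nonneg_right h11 h12
        _ = Real.cosh (k * s) * (N s / s) := by ring
    simp only [P]
    linarith
  have hlim : Tendsto (fun s => b s - Real.cosh (k * s) * (N s / s)) (𝓝[>] 0) (𝓝 0) := by
    have h13 : Tendsto b (𝓝[>] 0) (𝓝 0) := by
      have := (hb 0).continuousAt.tendsto
      rw [hb0] at this
      exact this.mono_left nhdsWithin_le_nhds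
    have h14 : Tendsto (fun s => Real.cosh (k * s)) (𝓝[>] 0) (𝓝 1) := by
      have hc : Continuous (fun s : ℝ => Real.cosh (k * s)) := by fun_prop
      have := hc.tendsto 0
      simp only [mul_zero, Real.cosh_zero] at this
      exact this.mono_left nhdsWithin_le_nhds
    have h15 : Tendsto (fun s => N s / s) (𝓝[>] 0) (𝓝 0) := by
      have h16 := (hN 0).tendsto_slope_zero_right
      rw [hb0, mul_zero] at h16
      refine h16.congr (fun s => ?_)
      simp only [zero_add, hN0, sub_zero, smul_eq_mul]
      ring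
    have h17 := h13.sub (h14.mul h15)
    simpa using h17
  have hfin : 0 ≤ P 1 := by
    apply le_of_tendsto hlim
    have h18 : ∀ᶠ s in 𝓝[>] (0 : ℝ), s ∈ Ioc (0 : ℝ) 1 := Ioc_mem_nhdsGT one_pos
    filter_upwards [h18] with s hs
    exact hlow s hs
  simp only [P, mul_one] at hfin
  linarith

/-- Cauchy-Schwarz -/
lemma cs {n : ℕ} (g : Form n) (x u v : E n) :
    g.val x u v ^ 2 ≤ g.val x u u * g.val x v v := by
  have h1 : ∀ r : ℝ, 0 ≤ g.val x v v * (r * r) + (2 * g.val x u v) * r + g.val x u u := by
    intro r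
    have h2 := g.nonneg x (u + r • v)
    simp only [map_add, map_smul, _root_.add_apply, _root_.smul_apply,
      smul_eq_mul] at h2
    rw [g.symm x v u] at h2
    nlinarith
  have h3 := discrim_le_zero h1
  unfold discrim at h3
  nlinarith

end INgJc

open INgJc in
theorem pr_NgJc (h1 : NcGa) (h2 : NcGeo) (h3 : NgMet) (h4 : NgAlg) : NgJc := by
  intro n g κ hg hκ hcurv c J hc hJ hJ0
  obtain ⟨hGa, -, -, -⟩ := h1 n g hg
  obtain ⟨hcC, hcd⟩ := (h2 n g hg c).1 hc
  obtain ⟨-, hprod, hgeo⟩ := h3 n g hg
  obtain ⟨-, halg, -⟩ := h4 n g hg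
  have dc : Differentiable ℝ c := hcC.differentiable (by norm_num)
  have dc' : Differentiable ℝ (deriv c) := fun t => (hcd t).differentiableAt
  have dJ : Differentiable ℝ J := hJ.smooth.differentiable (by norm_num)
  have dJ' : Differentiable ℝ (deriv J) := by
    have h5 : ContDiff ℝ 1 (deriv J) := by
      have h6 : ContDiff ℝ (1 + 1) J := by
        have := hJ.smooth
        norm_num
        exact this
      exact (contDiff_succ_iff_deriv.mp h6).2.2
    exact h5.differentiable (by norm_num)
  have dG : Differentiable ℝ (fun t => Ga g (c t) (deriv c t) (J t)) := by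
    have h7 : Differentiable ℝ (fun t => Ga g (c t)) :=
      (hGa.differentiable (by norm_num)).comp dc
    exact (h7.clm_apply dc').clm_apply dJ
  have dD : Differentiable ℝ (cov g c J) := by
    have h8 : cov g c J = fun t => deriv J t + Ga g (c t) (deriv c t) (J t) := rfl
    rw [h8]
    exact dJ'.add dG
  have hjac : ∀ t, cov g c (cov g c J) t = -Rm g (c t) (J t) (deriv c t) (deriv c t) :=
    fun t => eq_neg_of_add_eq_zero_left (hJ.jac t)
  -- derivatives
  have e1 : ∀ t, HasDerivAt (fun s => g.val (c s) (J s) (J s))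
      (2 * g.val (c t) (cov g c J t) (J t)) t := by
    intro t
    refine (hprod c J J t (dc t) (dJ t) (dJ t)).congr_deriv ?_
    rw [g.symm (c t) (J t) (cov g c J t)]
    ring
  have e2 : ∀ t, HasDerivAt (fun s => g.val (c s) (cov g c J s) (J s))
      (g.val (c t) (cov g c J t) (cov g c J t) - Kn g (c t) (J t) (deriv c t)) t := by
    intro t
    refine (hprod c (cov g c J) J t (dc t) (dD t) (dJ t)).congr_deriv ?_
    rw [hjac t]
    simp only [map_neg, _root_.neg_apply, Kn]
    ring
  have e3 : ∀ t, HasDerivAt (fun s => g.val (c s) (J s) (deriv c s))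
      (g.val (c t) (cov g c J t) (deriv c t)) t := by
    intro t
    refine (hprod c J (deriv c) t (dc t) (dJ t) (dc' t)).congr_deriv ?_
    rw [hgeo c hc t]
    simp
  have e4 : ∀ t, HasDerivAt (fun s => g.val (c s) (cov g c J s) (deriv c s)) 0 t := by
    intro t
    refine (hprod c (cov g c J) (deriv c) t (dc t) (dD t) (dc' t)).congr_deriv ?_
    rw [hgeo c hc t, hjac t]
    simp only [map_neg, _root_.neg_apply, map_zero, add_zero]
    rw [halg]
    simp
  constructor
  · intro l hl hsp
    let α : ℝ := g.val (c 0) (cov g c J 0) (deriv c 0)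
    have hα : ∀ t, g.val (c t) (cov g c J t) (deriv c t) = α := by
      intro t
      exact is_const_of_deriv_eq_zero (fun s => (e4 s).differentiableAt)
        (fun s => (e4 s).deriv) t 0
    have ha : ∀ t, g.val (c t) (J t) (deriv c t) = α * t := by
      intro t
      have h9 : ∀ s, HasDerivAt (fun s => g.val (c s) (J s) (deriv c s) - α * s) 0 s := by
        intro s
        have h10 : HasDerivAt (fun s : ℝ => α * s) α s := by
          simpa using (hasDerivAt_id s).const_mul α
        refine ((e3 s).sub h10).congr_deriv ?_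
        rw [hα s]
        ring
      have h11 := is_const_of_deriv_eq_zero (fun s => (h9 s).differentiableAt)
        (fun s => (h9 s).deriv) t 0
      simp only [hJ0, map_zero, _root_.zero_apply, mul_zero, sub_zero] at h11
      linarith
    have hl2 : l ^ 2 ≠ 0 := by positivity
    -- normal parts
    have hNN : ∀ t, g.val (c t) (J t - (t * α / l ^ 2) • deriv c t)
        (J t - (t * α / l ^ 2) • deriv c t) =
        g.val (c t) (J t) (J t) - t ^ 2 * α ^ 2 / l ^ 2 := by
      intro t
      simp only [map_sub, map_smul, _root_.sub_apply, _root_.smul_apply, smul_eq_mul]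
      rw [g.symm (c t) (deriv c t) (J t), ha t, hsp t]
      field_simp
      ring
    have hMM : ∀ t, g.val (c t) (cov g c J t - (α / l ^ 2) • deriv c t)
        (cov g c J t - (α / l ^ 2) • deriv c t) =
        g.val (c t) (cov g c J t) (cov g c J t) - α ^ 2 / l ^ 2 := by
      intro t
      simp only [map_sub, map_smul, _root_.sub_apply, _root_.smul_apply, smul_eq_mul]
      rw [g.symm (c t) (deriv c t) (cov g c J t), hα t, hsp t]
      field_simp
      ring
    have hMN : ∀ t, g.val (c t) (cov g c J t - (α / l ^ 2) • deriv c t)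
        (J t - (t * α / l ^ 2) • deriv c t) =
        g.val (c t) (cov g c J t) (J t) - t * α ^ 2 / l ^ 2 := by
      intro t
      simp only [map_sub, map_smul, _root_.sub_apply, _root_.smul_apply, smul_eq_mul]
      rw [g.symm (c t) (deriv c t) (J t), hα t, ha t, hsp t]
      field_simp
      ring
    have hcore := core (κ * l) (mul_pos hκ hl)
      (fun t => g.val (c t) (J t) (J t) - t ^ 2 * α ^ 2 / l ^ 2)
      (fun t => g.val (c t) (cov g c J t) (J t) - t * α ^ 2 / l ^ 2)
      (fun t => g.val (c t) (cov g c J t) (cov g c J t) - Kn g (c t) (J t) (deriv c t) -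
        α ^ 2 / l ^ 2)
      (fun t => g.val (c t) (cov g c J t) (cov g c J t) - α ^ 2 / l ^ 2) ?_ ?_ ?_ ?_ ?_ ?_ ?_ ?_
    · have h12 := ha 1
      rw [mul_one] at h12
      rw [h12]
      simp only [one_pow, one_mul] at hcore
      linarith
    · intro s
      have h13 : HasDerivAt (fun t : ℝ => t ^ 2 * α ^ 2 / l ^ 2) (2 * s * α ^ 2 / l ^ 2) s := by
        have h14 := ((hasDerivAt_pow 2 s).mul_const (α ^ 2)).div_const (l ^ 2)
        simpa using h14
      refine ((e1 s).sub h13).congr_deriv ?_
      ring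
    · intro s
      have h13 : HasDerivAt (fun t : ℝ => t * α ^ 2 / l ^ 2) (α ^ 2 / l ^ 2) s := by
        have h14 := ((hasDerivAt_id s).mul_const (α ^ 2)).div_const (l ^ 2)
        simpa using h14
      exact (e2 s).sub h13
    · simp [hJ0]
    · simp [hJ0]
    · intro s
      have h15 := hcurv (c s) (J s) (deriv c s)
      unfold Ar at h15
      rw [ha s, hsp s] at h15
      have h16 : (κ * l) ^ 2 * (g.val (c s) (J s) (J s) - s ^ 2 * α ^ 2 / l ^ 2) =
          κ ^ 2 * (g.val (c s) (J s) (J s) * l ^ 2 - (α * s) ^ 2) := by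
        field_simp
      rw [h16]
      linarith
    · intro s
      rw [← hNN s]
      exact g.nonneg _ _
    · intro s
      rw [← hMM s]
      exact g.nonneg _ _
    · intro s
      rw [← hNN s, ← hMM s, ← hMN s]
      exact cs g _ _ _
  · have hmono : Monotone (fun s => g.val (c s) (cov g c J s) (J s)) := by
      apply monotone_of_deriv_nonneg (fun s => (e2 s).differentiableAt)
      intro s
      rw [(e2 s).deriv]
      have h15 := hcurv (c s) (J s) (deriv c s)
      have h16 : 0 ≤ Ar g (c s) (J s) (deriv c s) := by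
        unfold Ar
        linarith [cs g (c s) (J s) (deriv c s)]
      have h17 : 0 ≤ κ ^ 2 * Ar g (c s) (J s) (deriv c s) := mul_nonneg (sq_nonneg κ) h16
      have h18 := g.nonneg (c s) (cov g c J s)
      linarith
    have h19 := hmono (zero_le_one : (0 : ℝ) ≤ 1)
    simp only [hJ0, map_zero] at h19
    exact h19

end Pool.Agent.MLS
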