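import Pool.Agent.Work.MP_25cd3b_gt.NG.Stmts

set_option autoImplicit false
set_option maxSynthPendingDepth 3

/-!
# Item Met: product rule for the covariant derivative
-/

open MeasureTheory Set Filter Topology
open scoped ContDiff ENNReal
open Pool.Agent.Work.MP_c9f990_an.Al (IsFlow)

namespace Pool.Agent.MLS

namespace INgMet

/-- the metric is parallel -/
lemma met (h1 : NcGa) {n : ℕ} (g : Form n) (hg : Riem g) (x u v w : E n) :
    fderiv ℝ g.val x u v w = g.val x (Ga g x u v) w + g.val x v (Ga g x u w) := by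
  obtain ⟨-, hs, -, hk⟩ := h1 n g hg
  rw [g.symm x v (Ga g x u w), hk, hk, hs x u w v, hs x v u w]
  ring

end INgMet

open INgMet in
theorem pr_NgMet (h1 : NcGa) (h2 : NcGeo) : NgMet := by
  intro n g hg
  refine ⟨fun x u v w => met h1 g hg x u v w, ?_, ?_⟩
  · intro c X Y t hc hX hY
    have hgd : HasFDerivAt g.val (fderiv ℝ g.val (c t)) (c t) :=
      (g.smooth.differentiable (by norm_num) (c t)).hasFDerivAt
    have hc' : HasDerivAt c (deriv c t) t := hc.hasDerivAt
    have e1 : HasDerivAt (fun s => g.val (c s)) (fderiv ℝ g.val (c t) (deriv c t)) t :=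
      hgd.comp_hasDerivAt t hc'
    have e2 := (e1.clm_apply hX.hasDerivAt).clm_apply hY.hasDerivAt
    refine e2.congr_deriv ?_
    simp only [_root_.add_apply, cov, map_add]
    rw [met h1 g hg]
    ring
  · intro c hc t
    have h3 := ((h2 n g hg c).1 hc).2 t
    unfold cov
    rw [h3.deriv]
    simp

end Pool.Agent.MLS
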