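import Pool.Agent.Work.MP_25cd3b_gt.NG.Stmts

set_option autoImplicit false

/-!
# Item NoC: nonpositive curvature, no conjugate points
-/

open MeasureTheory Set Filter Topology
open scoped ContDiff ENNReal

namespace Pool.Agent.MLS

namespace INgNoC

variable {n : ℕ}

/-- the linear map `u ↦ R(u, v) v` at `x` -/
noncomputable def RL (g : Form n) (x v : E n) : E n →L[ℝ] E n :=
  ((fderiv ℝ (Ga g) x).flip v).flip v - (fderiv ℝ (Ga g) x v).flip v +
    (Ga g x).flip (Ga g x v v) - (Ga g x v).comp ((Ga g x).flip v)

lemma RL_apply (g : Form n) (x u v : E n) : RL g x v u = Rm g x u v v := rfl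

/-- the system of first order -/
noncomputable def LL (g : Form n) (x v : E n) : E n × E n →L[ℝ] E n × E n :=
  (ContinuousLinearMap.snd ℝ (E n) (E n) -
      (Ga g x v).comp (ContinuousLinearMap.fst ℝ (E n) (E n))).prod
    (-((RL g x v).comp (ContinuousLinearMap.fst ℝ (E n) (E n))) -
      (Ga g x v).comp (ContinuousLinearMap.snd ℝ (E n) (E n)))

lemma LL_cont (g : Form n) (hG : ContDiff ℝ ∞ (Ga g)) (c v : ℝ → E n) (hc : Continuous c)
    (hv : Continuous v) : Continuous fun t => LL g (c t) (v t) := by
  have h1 : Continuous fun t => Ga g (c t) := hG.continuous.comp hc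
  have h2 : ∀ u : ℝ → E n, Continuous u → Continuous fun t => fderiv ℝ (Ga g) (c t) (u t) := by
    intro u hu
    exact (hG.continuous_fderiv_apply (by simp)).comp (hc.prodMk hu)
  have h3 : Continuous fun t => Ga g (c t) (v t) := h1.clm_apply hv
  rw [continuous_clm_apply]
  intro z
  have e : ∀ t, LL g (c t) (v t) z = (z.2 - Ga g (c t) (v t) z.1,
      -Rm g (c t) z.1 (v t) (v t) - Ga g (c t) (v t) z.2) := fun t => rfl
  simp only [e]
  have k1 : Continuous fun t => Rm g (c t) z.1 (v t) (v t) := by
    have e2 : ∀ t, Rm g (c t) z.1 (v t) (v t) =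
        fderiv ℝ (Ga g) (c t) z.1 (v t) (v t) - fderiv ℝ (Ga g) (c t) (v t) z.1 (v t) +
        Ga g (c t) z.1 (Ga g (c t) (v t) (v t)) - Ga g (c t) (v t) (Ga g (c t) z.1 (v t)) :=
      fun t => rfl
    simp only [e2]
    have a1 : Continuous fun t => fderiv ℝ (Ga g) (c t) z.1 (v t) (v t) :=
      ((h2 _ continuous_const).clm_apply hv).clm_apply hv
    have a2 : Continuous fun t => fderiv ℝ (Ga g) (c t) (v t) z.1 (v t) :=
      ((h2 _ hv).clm_apply continuous_const).clm_apply hv
    have a3 : Continuous fun t => Ga g (c t) z.1 (Ga g (c t) (v t) (v t)) :=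
      (h1.clm_apply continuous_const).clm_apply (h3.clm_apply hv)
    have a4 : Continuous fun t => Ga g (c t) (v t) (Ga g (c t) z.1 (v t)) :=
      h3.clm_apply ((h1.clm_apply continuous_const).clm_apply hv)
    exact ((a1.sub a2).add a3).sub a4
  exact (continuous_const.sub (h3.clm_apply continuous_const)).prodMk
    (k1.neg.sub (h3.clm_apply continuous_const))

/-- uniqueness for linear systems -/
lemma uniq {F : Type} [NormedAddCommGroup F] [NormedSpace ℝ F] (L : ℝ → F →L[ℝ] F)
    (hL : Continuous L) (Z : ℝ → F) (hZ : ∀ t, HasDerivAt Z (L t (Z t)) t) (m : ℝ)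
    (h0 : Z m = 0) : ∀ t, Z t = 0 := by
  intro t
  set T : ℝ := |t - m| + 1 with hT
  have hTp : 0 < T := by positivity
  obtain ⟨K, hK⟩ := isCompact_Icc.exists_bound_of_continuousOn
    (hL.continuousOn (s := Icc (m - T) (m + T)))
  have hK' : ∀ s ∈ Ioo (m - T) (m + T), LipschitzOnWith (Real.toNNReal K) (L s) univ := by
    intro s hs
    refine LipschitzWith.lipschitzOnWith ?_
    refine (L s).lipschitz.weaken ?_
    rw [← NNReal.coe_le_coe, coe_nnnorm]
    exact (hK s (Ioo_subset_Icc_self hs)).trans (Real.le_coe_toNNReal K)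
  have h1 := ODE_solution_unique_of_mem_Icc (v := fun s => L s) (s := fun _ => univ)
    (f := Z) (g := fun _ => (0 : F)) (t₀ := m) (a := m - T) (b := m + T) hK'
    ⟨by linarith, by linarith⟩ (fun s _ => (hZ s).continuousAt.continuousWithinAt)
    (fun s _ => hZ s) (fun s _ => mem_univ _) continuousOn_const
    (fun s _ => by
      have := hasDerivAt_const s (0 : F)
      simpa using this) (fun s _ => mem_univ _) h0
  have h2 := abs_le.1 (le_refl |t - m|)
  exact h1 ⟨by linarith [h2.1], by linarith [h2.2]⟩

end INgNoC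

open INgNoC in
theorem pr_NgNoC (h1 : NcGa) (h3 : NgMet) : NgNoC := by
  intro n g hg hK c hc J hJ
  obtain ⟨hGa, -, -, -⟩ := h1 n g hg
  obtain ⟨-, hM, -⟩ := h3 n g hg
  -- smoothness
  have hc1 : Differentiable ℝ c := hc.smooth.differentiable (by norm_num)
  have hJ1 : Differentiable ℝ J := hJ.smooth.differentiable (by norm_num)
  have hc2 : ContDiff ℝ 1 (deriv c) := by
    have := hc.smooth
    rw [show (2 : WithTop ℕ∞) = 1 + 1 by norm_num, contDiff_succ_iff_deriv] at this
    exact this.2.2
  have hJ2 : ContDiff ℝ 1 (deriv J) := by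
    have := hJ.smooth
    rw [show (2 : WithTop ℕ∞) = 1 + 1 by norm_num, contDiff_succ_iff_deriv] at this
    exact this.2.2
  have hY : ContDiff ℝ 1 (cov g c J) := by
    have k1 : ContDiff ℝ 1 fun t => Ga g (c t) :=
      (hGa.of_le (by norm_num)).comp (hc.smooth.of_le (by norm_num))
    exact hJ2.add ((k1.clm_apply hc2).clm_apply (hJ.smooth.of_le (by norm_num)))
  have hYd : Differentiable ℝ (cov g c J) := hY.differentiable (by norm_num)
  -- the two derivatives
  have hq : ∀ t, HasDerivAt (fun s => g.val (c s) (J s) (J s))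
      (2 * g.val (c t) (cov g c J t) (J t)) t := by
    intro t
    have := hM c J J t (hc1 t) (hJ1 t) (hJ1 t)
    rw [g.symm (c t) (J t) (cov g c J t), ← two_mul] at this
    exact this
  have hp : ∀ t, HasDerivAt (fun s => g.val (c s) (cov g c J s) (J s))
      (g.val (c t) (cov g c (cov g c J) t) (J t) +
        g.val (c t) (cov g c J t) (cov g c J t)) t := fun t =>
    hM c (cov g c J) J t (hc1 t) (hYd t) (hJ1 t)
  have hpn : ∀ t, 0 ≤ g.val (c t) (cov g c (cov g c J) t) (J t) +
      g.val (c t) (cov g c J t) (cov g c J t) := by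
    intro t
    have k1 : cov g c (cov g c J) t = -Rm g (c t) (J t) (deriv c t) (deriv c t) :=
      eq_neg_of_add_eq_zero_left (hJ.jac t)
    have k2 : Kn g (c t) (J t) (deriv c t) ≤ 0 := by
      have := hK (c t) (J t) (deriv c t)
      simpa using this
    have k3 : g.val (c t) (cov g c (cov g c J) t) (J t) = -Kn g (c t) (J t) (deriv c t) := by
      rw [k1, map_neg]
      rfl
    rw [k3]
    have k4 := g.nonneg (c t) (cov g c J t)
    linarith
  have hmono : Monotone fun s => g.val (c s) (cov g c J s) (J s) := by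
    refine monotone_of_deriv_nonneg (fun t => (hp t).differentiableAt) fun t => ?_
    rw [(hp t).deriv]
    exact hpn t
  have hconv : ConvexOn ℝ univ fun s => g.val (c s) (J s) (J s) := by
    refine Monotone.convexOn_univ_of_deriv (fun t => (hq t).differentiableAt) ?_
    intro s t hst
    rw [(hq s).deriv, (hq t).deriv]
    exact mul_le_mul_of_nonneg_left (hmono hst) (by norm_num)
  -- the system
  have hZ : ∀ t, HasDerivAt (fun s => (J s, cov g c J s))
      (LL g (c t) (deriv c t) (J t, cov g c J t)) t := by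
    intro t
    have k1 : HasDerivAt J (cov g c J t - Ga g (c t) (deriv c t) (J t)) t := by
      have := (hJ1 t).hasDerivAt
      have e : cov g c J t - Ga g (c t) (deriv c t) (J t) = deriv J t := by
        unfold cov
        abel
      rwa [e]
    have k2 : HasDerivAt (cov g c J) (-Rm g (c t) (J t) (deriv c t) (deriv c t) -
        Ga g (c t) (deriv c t) (cov g c J t)) t := by
      have := (hYd t).hasDerivAt
      have e : -Rm g (c t) (J t) (deriv c t) (deriv c t) -
          Ga g (c t) (deriv c t) (cov g c J t) = deriv (cov g c J) t := by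
        have k3 : cov g c (cov g c J) t = -Rm g (c t) (J t) (deriv c t) (deriv c t) :=
          eq_neg_of_add_eq_zero_left (hJ.jac t)
        rw [← k3]
        show deriv (cov g c J) t + Ga g (c t) (deriv c t) (cov g c J t) -
          Ga g (c t) (deriv c t) (cov g c J t) = _
        abel
      rwa [e]
    exact k1.prodMk k2
  have main : ∀ a b : ℝ, a < b → J a = 0 → J b = 0 → ∀ t, J t = 0 := by
    intro a b hab ha hb
    have hz : ∀ t ∈ Icc a b, J t = 0 := by
      intro t ht
      by_contra hne
      have k1 := hg (c t) (J t) hne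
      have k2 := hconv.le_on_segment (mem_univ a) (mem_univ b)
        (show t ∈ segment ℝ a b by rw [segment_eq_Icc hab.le]; exact ht)
      simp only [ha, hb, map_zero, max_self] at k2
      linarith
    set m : ℝ := (a + b) / 2 with hm
    have hmI : m ∈ Ioo a b := ⟨by rw [hm]; linarith, by rw [hm]; linarith⟩
    have hJm : J m = 0 := hz m (Ioo_subset_Icc_self hmI)
    have hdJ : deriv J m = 0 := by
      have k1 : J =ᶠ[𝓝 m] fun _ => (0 : E n) := by
        filter_upwards [isOpen_Ioo.mem_nhds hmI] with s hs
        exact hz s (Ioo_subset_Icc_self hs)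
      rw [k1.deriv_eq, deriv_const]
    have hYm : cov g c J m = 0 := by
      unfold cov
      rw [hdJ, hJm, map_zero, add_zero]
    have k2 := uniq (fun t => LL g (c t) (deriv c t))
      (LL_cont g hGa c (deriv c) hc1.continuous hc2.continuous)
      (fun s => (J s, cov g c J s)) hZ m (by rw [hJm, hYm]; rfl)
    intro t
    exact congrArg Prod.fst (k2 t)
  intro a b hab ha hb
  rcases lt_or_gt_of_ne hab with h | h
  · exact main a b h ha hb
  · exact main b a h hb ha

end Pool.Agent.MLS
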