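import Pool.Agent.Work.MP_25cd3b_gt.NG.Stmts

set_option autoImplicit false
set_option maxSynthPendingDepth 3

/-!
# MP_25cd3b_gt: item Ode of block NG, comparison of `cosh (κ l)` with `cosh (κ t)`
-/

open MeasureTheory Set Filter Topology
open scoped ContDiff ENNReal

namespace Pool.Agent.MLS

namespace INgOde

theorem mono0 (f f' : ℝ → ℝ) (hf : ∀ t, 0 ≤ t → HasDerivAt f (f' t) t)
    (h : ∀ t, 0 ≤ t → 0 ≤ f' t) : ∀ t, 0 ≤ t → f 0 ≤ f t := by
  have hm : MonotoneOn f (Ici 0) := by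
    apply monotoneOn_of_deriv_nonneg (convex_Ici 0)
    · exact fun t ht => (hf t ht).continuousAt.continuousWithinAt
    · intro t ht
      rw [interior_Ici] at ht
      exact (hf t (le_of_lt ht)).differentiableAt.differentiableWithinAt
    · intro t ht
      rw [interior_Ici] at ht
      rw [(hf t (le_of_lt ht)).deriv]
      exact h t (le_of_lt ht)
  exact fun t ht => hm self_mem_Ici ht ht

theorem alg (κ l s : ℝ) (e1 e2 : ℝ) (hl : 0 < l) (hs : 0 < s) (c : ℝ)
    (hκ : 0 < κ)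
    (h : e1 ^ 2 / l ^ 2 + κ * l * (c / s) * (1 - e1 ^ 2 / l ^ 2) ≤ e2) :
    κ ^ 2 * c ≤ κ * ((c * (κ * (e1 / l))) * (e1 / l) + s * ((e2 * l - e1 * (e1 / l)) / l ^ 2)) := by
  have hl0 : l ≠ 0 := hl.ne'
  have hs0 : s ≠ 0 := hs.ne'
  have h2 : κ * s / l * (e1 ^ 2 / l ^ 2 + κ * l * (c / s) * (1 - e1 ^ 2 / l ^ 2)) ≤
      κ * s / l * e2 := mul_le_mul_of_nonneg_left h (by positivity)
  have h3 : κ * ((c * (κ * (e1 / l))) * (e1 / l) + s * ((e2 * l - e1 * (e1 / l)) / l ^ 2)) -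
      κ ^ 2 * c = κ * s / l * e2 -
        κ * s / l * (e1 ^ 2 / l ^ 2 + κ * l * (c / s) * (1 - e1 ^ 2 / l ^ 2)) := by
    field_simp
    ring
  linarith

end INgOde

open INgOde

theorem pr_NgOde : NgOde := by
  intro κ a e e1 e2 hκ ha he he1 h0 h10 h2 hmain
  have hE1 : ∀ t, 0 ≤ t → 0 ≤ e1 t := fun t ht =>
    h10.trans (mono0 e1 e2 (fun t _ => he1 t) (fun t _ => h2 t) t ht)
  have hE : ∀ t, 0 ≤ t → 0 < e t := fun t ht =>
    h0.trans_le (mono0 e e1 (fun t _ => he t) hE1 t ht)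
  have hl : ∀ t, 0 ≤ t → 0 < Real.sqrt (2 * e t) := fun t ht =>
    Real.sqrt_pos.2 (by have := hE t ht; linarith)
  have hlsq : ∀ t, 0 ≤ t → Real.sqrt (2 * e t) ^ 2 = 2 * e t := fun t ht =>
    Real.sq_sqrt (by have := hE t ht; linarith)
  have dl : ∀ t, 0 ≤ t → HasDerivAt (fun s => Real.sqrt (2 * e s))
      (e1 t / Real.sqrt (2 * e t)) t := by
    intro t ht
    have h := ((he t).const_mul 2).sqrt (by have := hE t ht; positivity)
    convert h using 1
    have := (hl t ht).ne'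
    field_simp
  have dh : ∀ t, 0 ≤ t → HasDerivAt (fun s => Real.cosh (κ * Real.sqrt (2 * e s)))
      (κ * (Real.sinh (κ * Real.sqrt (2 * e t)) * (e1 t / Real.sqrt (2 * e t)))) t := by
    intro t ht
    have h := ((dl t ht).const_mul κ).cosh
    convert h using 1
    ring
  have dh1 : ∀ t, 0 ≤ t → HasDerivAt
      (fun t => κ * (Real.sinh (κ * Real.sqrt (2 * e t)) * (e1 t / Real.sqrt (2 * e t))))
      (κ * ((Real.cosh (κ * Real.sqrt (2 * e t)) * (κ * (e1 t / Real.sqrt (2 * e t)))) *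
        (e1 t / Real.sqrt (2 * e t)) + Real.sinh (κ * Real.sqrt (2 * e t)) *
          ((e2 t * Real.sqrt (2 * e t) - e1 t * (e1 t / Real.sqrt (2 * e t))) /
            Real.sqrt (2 * e t) ^ 2))) t := by
    intro t ht
    exact ((((dl t ht).const_mul κ).sinh).mul ((he1 t).div (dl t ht) (hl t ht).ne')).const_mul κ
  have key : ∀ t, 0 ≤ t → κ ^ 2 * Real.cosh (κ * Real.sqrt (2 * e t)) ≤
      κ * ((Real.cosh (κ * Real.sqrt (2 * e t)) * (κ * (e1 t / Real.sqrt (2 * e t)))) *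
        (e1 t / Real.sqrt (2 * e t)) + Real.sinh (κ * Real.sqrt (2 * e t)) *
          ((e2 t * Real.sqrt (2 * e t) - e1 t * (e1 t / Real.sqrt (2 * e t))) /
            Real.sqrt (2 * e t) ^ 2)) := by
    intro t ht
    refine alg κ _ _ (e1 t) (e2 t) (hl t ht) (Real.sinh_pos_iff.2 (mul_pos hκ (hl t ht))) _ hκ ?_
    have h := hmain t (hE t ht)
    rw [hlsq t ht]
    exact h
  -- the function `D`
  have dD : ∀ t, 0 ≤ t → HasDerivAt (fun t =>
      (κ * (Real.sinh (κ * Real.sqrt (2 * e t)) * (e1 t / Real.sqrt (2 * e t)))) *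
        Real.cosh (κ * t) - κ * (Real.cosh (κ * Real.sqrt (2 * e t)) * Real.sinh (κ * t)))
      ((κ * ((Real.cosh (κ * Real.sqrt (2 * e t)) * (κ * (e1 t / Real.sqrt (2 * e t)))) *
        (e1 t / Real.sqrt (2 * e t)) + Real.sinh (κ * Real.sqrt (2 * e t)) *
          ((e2 t * Real.sqrt (2 * e t) - e1 t * (e1 t / Real.sqrt (2 * e t))) /
            Real.sqrt (2 * e t) ^ 2)) - κ ^ 2 * Real.cosh (κ * Real.sqrt (2 * e t))) *
        Real.cosh (κ * t)) t := by
    intro t ht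
    have hid : HasDerivAt (fun s : ℝ => κ * s) (κ * 1) t := (hasDerivAt_id t).const_mul κ
    exact HasDerivAt.congr_deriv
      (((dh1 t ht).mul hid.cosh).sub (((dh t ht).mul hid.sinh).const_mul κ)) (by ring)
  have hD : ∀ t, 0 ≤ t → 0 ≤
      (κ * (Real.sinh (κ * Real.sqrt (2 * e t)) * (e1 t / Real.sqrt (2 * e t)))) *
        Real.cosh (κ * t) - κ * (Real.cosh (κ * Real.sqrt (2 * e t)) * Real.sinh (κ * t)) := by
    intro t ht
    have h := mono0 _ _ dD (fun t ht => mul_nonneg (sub_nonneg.2 (key t ht))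
      (Real.cosh_pos _).le) t ht
    refine le_trans ?_ h
    have h1 : 0 ≤ Real.sinh (κ * Real.sqrt (2 * e 0)) :=
      (Real.sinh_pos_iff.2 (mul_pos hκ (hl 0 le_rfl))).le
    have h2 : 0 ≤ e1 0 / Real.sqrt (2 * e 0) := div_nonneg h10 (hl 0 le_rfl).le
    simp only [mul_zero, Real.sinh_zero, Real.cosh_zero, mul_one, sub_zero]
    positivity
  have dq : ∀ t, 0 ≤ t → HasDerivAt (fun t => Real.cosh (κ * Real.sqrt (2 * e t)) /
      Real.cosh (κ * t))
      (((κ * (Real.sinh (κ * Real.sqrt (2 * e t)) * (e1 t / Real.sqrt (2 * e t)))) *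
        Real.cosh (κ * t) - κ * (Real.cosh (κ * Real.sqrt (2 * e t)) * Real.sinh (κ * t))) /
        Real.cosh (κ * t) ^ 2) t := by
    intro t ht
    have hid : HasDerivAt (fun s : ℝ => κ * s) (κ * 1) t := (hasDerivAt_id t).const_mul κ
    exact HasDerivAt.congr_deriv ((dh t ht).div hid.cosh (Real.cosh_pos _).ne') (by ring)
  have hq := mono0 _ _ dq (fun t ht => div_nonneg (hD t ht) (sq_nonneg _)) a ha
  simp only [mul_zero, Real.cosh_zero, div_one] at hq
  rw [le_div_iff₀ (Real.cosh_pos _)] at hq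
  exact hq

end Pool.Agent.MLS
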