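import Pool.Agent.Work.MP_25cd3b_gt.NG.Stmts

set_option autoImplicit false

/-!
# Item Pt: the four point condition in curvature at most `-κ^2`
-/

open MeasureTheory Set Filter Topology
open scoped ContDiff ENNReal
open Pool.Agent.Work.MP_c9f990_an.Al (IsFlow)

namespace Pool.Agent.MLS

namespace INgPt

/-- Cauchy-Schwarz. -/
theorem ar_nonneg {n : ℕ} (g : Form n) (x u v : E n) : 0 ≤ Ar g x u v := by
  have h : ∀ r : ℝ, 0 ≤ g.val x v v * (r * r) + 2 * g.val x u v * r + g.val x u u := by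
    intro r
    have h1 := g.nonneg x (u + r • v)
    have h2 : g.val x (u + r • v) (u + r • v) =
        g.val x v v * (r * r) + 2 * g.val x u v * r + g.val x u u := by
      have h3 : g.val x (u + r • v) = g.val x u + r • g.val x v := by
        rw [map_add, map_smul]
      rw [h3, add_apply, smul_apply, map_add, map_add,
        map_smul, map_smul, g.symm x v u]
      simp only [smul_eq_mul]
      ring
    rw [← h2]
    exact h1
  have h3 := discrim_le_zero h
  unfold discrim at h3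
  unfold Ar
  nlinarith

/-- The inequality of hyperbolic cosines, in terms of distances. -/
theorem cosh_bound {κ a b d : ℝ} (hκ : 0 < κ) (hd : 0 ≤ d)
    (h : Real.cosh (κ * a) * Real.cosh (κ * b) ≤ Real.cosh (κ * d)) :
    a + b - Real.log 4 / κ ≤ d := by
  have h1 : ∀ t : ℝ, Real.exp t / 2 ≤ Real.cosh t := fun t => by
    rw [Real.cosh_eq]
    linarith [Real.exp_pos (-t)]
  have h0 : 0 ≤ κ * d := mul_nonneg hκ.le hd
  have h2 : Real.cosh (κ * d) ≤ Real.exp (κ * d) := by
    rw [Real.cosh_eq]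
    have : Real.exp (-(κ * d)) ≤ Real.exp (κ * d) := Real.exp_le_exp.2 (by linarith)
    linarith
  have h3 : Real.exp (κ * (a + b)) / 4 ≤ Real.exp (κ * d) := by
    calc Real.exp (κ * (a + b)) / 4 = Real.exp (κ * a) / 2 * (Real.exp (κ * b) / 2) := by
          rw [mul_add, Real.exp_add]; ring
      _ ≤ Real.cosh (κ * a) * Real.cosh (κ * b) :=
          mul_le_mul (h1 _) (h1 _) (by positivity) (Real.cosh_pos _).le
      _ ≤ _ := h.trans h2
  have h4 : Real.exp (κ * (a + b) - Real.log 4) ≤ Real.exp (κ * d) := by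
    rw [Real.exp_sub, Real.exp_log (by norm_num)]
    exact h3
  have h5 := Real.exp_le_exp.1 h4
  have h6 : κ * (a + b - Real.log 4 / κ) = κ * (a + b) - Real.log 4 := by
    field_simp
  exact le_of_mul_le_mul_left (by rw [h6]; exact h5) hκ

theorem c0_nonneg {κ : ℝ} (hκ : 0 < κ) : 0 ≤ Real.log 4 / κ :=
  div_nonneg (Real.log_nonneg (by norm_num)) hκ.le

theorem nrm_sq {n : ℕ} (g : Form n) (x v : E n) : nrm g x v ^ 2 = g.val x v v :=
  Real.sq_sqrt (g.nonneg x v)

theorem val_smul {n : ℕ} (g : Form n) (x u v : E n) (r s : ℝ) :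
    g.val x (r • u) (s • v) = r * s * g.val x u v := by
  have h : g.val x (r • u) = r • g.val x u := map_smul _ _ _
  rw [h, smul_apply, map_smul, smul_eq_mul, smul_eq_mul]
  ring

theorem nrm_smul_unit {n : ℕ} (g : Form n) (x u : E n) (a : ℝ) (ha : 0 ≤ a)
    (hu : g.val x u u = 1) : nrm g x (a • u) = a := by
  unfold nrm
  rw [val_smul, hu, mul_one]
  exact Real.sqrt_mul_self ha

/-- Triangles with an angle of at least `π / 2` at `m`, in terms of distances. -/
theorem star {n : ℕ} {g : Form n} {φ : ℝ → W n → W n} {κ : ℝ} (hR : Riem g) (hκ : 0 < κ)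
    (hPM : IsPM (gd g)) (hE0 : ∀ p, expo φ g p 0 = p)
    (hD : ∀ p v, gd g p (expo φ g p v) = nrm g p v)
    (hRT : ∀ m u v : E n, g.val m u u = 1 → g.val m v v = 1 → g.val m u v ≤ 0 →
      ∀ a b : ℝ, 0 ≤ a → 0 ≤ b → Real.cosh (κ * a) * Real.cosh (κ * b) ≤
        Real.cosh (κ * gd g (expo φ g m (a • u)) (expo φ g m (b • v))))
    (m u V : E n) (a : ℝ) (ha : 0 ≤ a) (hu : g.val m u u = 1) (hV : g.val m V u ≤ 0) :
    a + gd g m (expo φ g m V) - Real.log 4 / κ ≤
      gd g (expo φ g m (a • u)) (expo φ g m V) := by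
  by_cases hV0 : V = 0
  · subst hV0
    rw [hE0, hPM.self, hPM.symm, hD, nrm_smul_unit g m u a ha hu]
    linarith [c0_nonneg hκ]
  · have hpos : 0 < g.val m V V := hR m V hV0
    have hb : 0 < nrm g m V := Real.sqrt_pos.2 hpos
    have hbb : nrm g m V ^ 2 = g.val m V V := nrm_sq g m V
    have hv : g.val m ((nrm g m V)⁻¹ • V) ((nrm g m V)⁻¹ • V) = 1 := by
      rw [val_smul, ← hbb]
      field_simp
    have huv : g.val m u ((nrm g m V)⁻¹ • V) ≤ 0 := by
      rw [g.symm]
      have h1 : g.val m ((nrm g m V)⁻¹ • V) u = (nrm g m V)⁻¹ * g.val m V u := by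
        rw [map_smul, smul_apply, smul_eq_mul]
      rw [h1]
      exact mul_nonpos_of_nonneg_of_nonpos (inv_nonneg.2 hb.le) hV
    have h2 := hRT m u ((nrm g m V)⁻¹ • V) hu hv huv a (nrm g m V) ha hb.le
    rw [smul_inv_smul₀ hb.ne'] at h2
    have h3 := cosh_bound hκ (hPM.nonneg _ _) h2
    rw [hD m V]
    exact h3

/-- Derivative from the right at a minimum. -/
theorem deriv_right {e : ℝ → ℝ} {e' t L : ℝ} (h : HasDerivAt e e' t) (htL : t < L)
    (hmin : ∀ s, t < s → s < L → e t ≤ e s) : 0 ≤ e' := by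
  have h1 := (hasDerivWithinAt_iff_tendsto_slope' (notMem_Ioi.2 le_rfl)).1
    (h.hasDerivWithinAt (s := Ioi t))
  refine ge_of_tendsto h1 ?_
  filter_upwards [Ioo_mem_nhdsGT htL] with s hs
  rw [slope_def_field]
  exact div_nonneg (sub_nonneg.2 (hmin s hs.1 hs.2)) (sub_nonneg.2 hs.1.le)

/-- Derivative from the left at a minimum. -/
theorem deriv_left {e : ℝ → ℝ} {e' t L : ℝ} (h : HasDerivAt e e' t) (htL : L < t)
    (hmin : ∀ s, L < s → s < t → e t ≤ e s) : e' ≤ 0 := by
  have h1 := (hasDerivWithinAt_iff_tendsto_slope' (notMem_Iio.2 le_rfl)).1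
    (h.hasDerivWithinAt (s := Iio t))
  refine le_of_tendsto h1 ?_
  filter_upwards [Ioo_mem_nhdsLT htL] with s hs
  rw [slope_def_field]
  exact div_nonpos_of_nonneg_of_nonpos (sub_nonneg.2 (hmin s hs.1 hs.2)) (sub_nonpos.2 hs.2.le)

end INgPt

open INgPt in
theorem pr_NgPt (h1 : StGd) (h2 : StOp) (h3 : StGeo1) (h4 : NcExp) (h5 : NcInj) (h6 : NcDist)
    (h7 : NcGx) (h8 : NgNoC) (h10 : NgVar) (h11 : NgRev) (h12 : NgRT) : NgPt := by
  intro n g φ M κ hR hF hκ hC
  obtain ⟨-, hPM, -, -⟩ := h1 n g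
  obtain ⟨-, -, hio, -, -, -, -, -, hHm⟩ := h2 n g hR
  have hC0 : CurvLe g 0 := by
    intro x u v
    have h := hC x u v
    have hA := ar_nonneg g x u v
    have : 0 ≤ κ ^ 2 * Ar g x u v := mul_nonneg (sq_nonneg κ) hA
    have h0 : -(0 : ℝ) ^ 2 * Ar g x u v = 0 := by ring
    rw [h0]
    linarith
  have hNo : NoConj g := h8 n g hR hC0
  have hInj : ∀ p v w, fderiv ℝ (expo φ g p) v w = 0 → w = 0 := fun p v w =>
    h5 n g φ M hR hF hNo p v w
  have hBij : ∀ p, Function.Bijective (expo φ g p) := fun p =>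
    (h6 n g φ M hR hF p (hInj p)).1
  have hD : ∀ p v, gd g p (expo φ g p v) = nrm g p v := fun p =>
    (h6 n g φ M hR hF p (hInj p)).2
  have hE0 : ∀ p, expo φ g p 0 = p := fun p => (h4 n g φ M hR hF p).2.2.2.2
  have hRT := h12 n g φ M κ hR hF hκ hC
  have hst := fun m u V a ha hu hV => star (φ := φ) hR hκ hPM hE0 hD hRT m u V a ha hu hV
  have hc0 := c0_nonneg hκ
  intro x y z w
  by_cases hxy : x = y
  · subst hxy
    have ht := hPM.tri z x w
    rw [hPM.symm z x] at ht
    have hm := le_max_left (gd g x z + gd g x w) (gd g x w + gd g x z)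
    rw [hPM.self]
    linarith
  obtain ⟨W0, hW0⟩ := (hBij x).2 y
  have hW0ne : W0 ≠ 0 := by
    rintro rfl
    exact hxy ((hE0 x).symm.trans hW0)
  have hLpos : 0 < nrm g x W0 := Real.sqrt_pos.2 (hR x W0 hW0ne)
  set L : ℝ := nrm g x W0 with hL
  have hLxy : gd g x y = L := by rw [← hW0, hD]
  set u : E n := L⁻¹ • W0 with hu
  have huu : g.val x u u = 1 := by
    rw [hu, val_smul, ← nrm_sq g x W0, ← hL]
    field_simp
  have hLu : L • u = W0 := by rw [hu, smul_inv_smul₀ hLpos.ne']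
  obtain ⟨hgeo, hder, hen⟩ := h3 n g hR (fun t => φ t (x, op g x u)) (fun t => hF.ode _ t)
  set σ : ℝ → E n := fun t => (φ t (x, op g x u)).1 with hσ
  have hσe : ∀ t, σ t = expo φ g x (t • u) := fun t => (h4 n g φ M hR hF x).2.2.1 t u
  have hσ0 : σ 0 = x := by rw [hσe, zero_smul, hE0]
  have hσL : σ L = y := by rw [hσe, hLu, hW0]
  have hsp : ∀ t, g.val (σ t) (deriv σ t) (deriv σ t) = 1 := by
    intro t
    have e1 : Hm g (φ t (x, op g x u)) = Hm g (φ 0 (x, op g x u)) := hen t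
    rw [hF.zero, hHm, hHm] at e1
    have e2 : vel g (x, op g x u) = u := hio x u
    rw [e2] at e1
    have e3 : deriv σ t = vel g (φ t (x, op g x u)) := hder t
    rw [e3]
    have e4 : g.val (σ t) (vel g (φ t (x, op g x u))) (vel g (φ t (x, op g x u))) =
      g.val (φ t (x, op g x u)).1 (vel g (φ t (x, op g x u))) (vel g (φ t (x, op g x u))) := rfl
    rw [e4]
    have e5 : g.val (x, op g x u).1 u u = 1 := huu
    rw [e5] at e1
    linarith
  have hgx : ∀ s t, σ t = expo φ g (σ s) ((t - s) • deriv σ s) := fun s t =>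
    (h7 n g φ M hR hF σ hgeo s t).2
  obtain ⟨ww, e1, -, hww, he1, -, he1v, -⟩ := h10 n g φ M hR hF w (hInj w) (hBij w) σ hgeo
  set e : ℝ → ℝ := fun s => 1 / 2 * g.val w (ww s) (ww s) with he
  have hec : Continuous e := continuous_iff_continuousAt.2 fun t => (he1 t).continuousAt
  obtain ⟨t0, ht0, hmin⟩ := isCompact_Icc.exists_isMinOn (nonempty_Icc.2 hLpos.le)
    hec.continuousOn
  have hmin' : ∀ s, 0 ≤ s → s ≤ L → e t0 ≤ e s := fun s hs hs' => hmin ⟨hs, hs'⟩
  obtain ⟨V, hV⟩ := (hBij (σ t0)).2 w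
  have hrev : vel g (φ 1 (w, op g w (ww t0))) = -V := by
    have h := h11 n g φ M hR hF (σ t0) V (ww t0) (by rw [hV]; exact (hBij w).1)
      (by rw [hV]; exact hww t0)
    rw [hV] at h
    exact h
  have he1t : e1 t0 = -g.val (σ t0) V (deriv σ t0) := by
    rw [he1v t0, hrev, map_neg, neg_apply]
  have hσ1 := hsp t0
  have hσm : g.val (σ t0) (-deriv σ t0) (-deriv σ t0) = 1 := by
    rw [map_neg, map_neg, neg_apply, neg_neg]
    exact hσ1
  have hy : expo φ g (σ t0) ((L - t0) • deriv σ t0) = y := by rw [← hgx, hσL]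
  have hx : expo φ g (σ t0) (t0 • -deriv σ t0) = x := by
    have h := hgx t0 0
    rw [hσ0, zero_sub, neg_smul] at h
    rw [smul_neg]
    exact h.symm
  have hLt : 0 ≤ L - t0 := sub_nonneg.2 ht0.2
  -- distances from `w`
  have hPy : (L - t0) + gd g (σ t0) w - Real.log 4 / κ ≤ gd g y w := by
    rcases ht0.2.lt_or_eq with hlt | heq
    · have hs : 0 ≤ e1 t0 := deriv_right (he1 t0) hlt
        (fun s hs hs' => hmin' s (ht0.1.trans hs.le) hs'.le)
      have h := hst (σ t0) (deriv σ t0) V (L - t0) hLt hσ1 (by linarith)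
      rw [hy, hV] at h
      exact h
    · have : σ t0 = y := by rw [heq, hσL]
      rw [this, heq]
      linarith
  have hPx : t0 + gd g (σ t0) w - Real.log 4 / κ ≤ gd g x w := by
    rcases ht0.1.lt_or_eq with hlt | heq
    · have hs : e1 t0 ≤ 0 := deriv_left (he1 t0) hlt
        (fun s hs hs' => hmin' s hs.le (hs'.le.trans ht0.2))
      have h := hst (σ t0) (-deriv σ t0) V t0 ht0.1 hσm (by rw [map_neg]; linarith)
      rw [hx, hV] at h
      exact h
    · have : σ t0 = x := by rw [← heq, hσ0]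
      rw [this, ← heq]
      linarith
  -- distances from `z`
  obtain ⟨Vz, hVz⟩ := (hBij (σ t0)).2 z
  have ht1 := hPM.tri z (σ t0) w
  rw [hPM.symm z (σ t0)] at ht1
  rcases le_total (g.val (σ t0) Vz (deriv σ t0)) 0 with hle | hge
  · have h := hst (σ t0) (deriv σ t0) Vz (L - t0) hLt hσ1 hle
    rw [hy, hVz] at h
    have hm := le_max_right (gd g x z + gd g y w) (gd g x w + gd g y z)
    rw [hLxy]
    linarith
  · have h := hst (σ t0) (-deriv σ t0) Vz t0 ht0.1 hσm (by rw [map_neg]; linarith)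
    rw [hx, hVz] at h
    have hm := le_max_left (gd g x z + gd g y w) (gd g x w + gd g y z)
    rw [hLxy]
    linarith

end Pool.Agent.MLS
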