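import Mathlib
import Pool.Agent.Work.MP_25cd3b_gt.NG.Stmts

set_option autoImplicit false

/-!
# MP_25cd3b_gt, block NG, item RT: triangles with an angle of at least a right angle
-/

open MeasureTheory Set Filter Topology
open scoped ContDiff ENNReal
open Pool.Agent.Work.MP_c9f990_an.Al (IsFlow)

namespace Pool.Agent.MLS

namespace INgRT

/-- the area of a parallelogram is nonnegative -/
theorem ar_nonneg {n : ℕ} (g : Form n) (x u v : E n) : 0 ≤ Ar g x u v := by
  unfold Ar
  have huu := g.nonneg x u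
  have hvv := g.nonneg x v
  have hsym := g.symm x v u
  have key : ∀ s t : ℝ, 0 ≤ s ^ 2 * g.val x u u - 2 * s * t * g.val x u v + t ^ 2 * g.val x v v := by
    intro s t
    have h := g.nonneg x (s • u - t • v)
    have e : g.val x (s • u - t • v) (s • u - t • v)
        = s ^ 2 * g.val x u u - 2 * s * t * g.val x u v + t ^ 2 * g.val x v v := by
      simp only [map_sub, map_smul, sub_apply, smul_apply,
        smul_eq_mul]
      rw [hsym]
      ring
    rw [e] at h
    exact h
  rcases eq_or_lt_of_le hvv with h0 | hpos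
  · -- `g v v = 0`
    have huv : g.val x u v = 0 := by
      by_contra hne
      have h := key 1 ((g.val x u u + 1) / (2 * g.val x u v))
      rw [← h0] at h
      have e : 2 * (1 : ℝ) * ((g.val x u u + 1) / (2 * g.val x u v)) * g.val x u v
          = g.val x u u + 1 := by
        field_simp
      nlinarith
    rw [← h0, huv]
    simp
  · have h := key (g.val x v v) (g.val x u v)
    have e : g.val x v v ^ 2 * g.val x u u - 2 * g.val x v v * g.val x u v * g.val x u v
        + g.val x u v ^ 2 * g.val x v v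
        = g.val x v v * (g.val x u u * g.val x v v - g.val x u v ^ 2) := by ring
    rw [e] at h
    exact nonneg_of_mul_nonneg_right h hpos

end INgRT

open INgRT in
theorem pr_NgRT (h1 : StGd) (h2 : StOp) (h3 : StGeo1) (h4 : NcExp) (h5 : NcInj) (h6 : NcDist)
    (h8 : NgNoC) (h10 : NgJc) (h11 : NgVar) (h12 : NgRev) (h13 : NgOde) : NgRT := by
  intro n g φ M κ hR hφ hκ hcur m u v hu hv huv a b ha hb
  obtain ⟨-, hop, hio, -, -, -, -, -, hHm⟩ := h2 n g hR
  have hcur0 : CurvLe g 0 := by
    intro x u' v'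
    have h := hcur x u' v'
    have h0 := ar_nonneg g x u' v'
    have : 0 ≤ κ ^ 2 * Ar g x u' v' := by positivity
    nlinarith
  have hNC : NoConj g := h8 n g hR hcur0
  have hinj := h5 n g φ M hR hφ hNC
  have hdist := fun p => h6 n g φ M hR hφ p (hinj p)
  have hvel0 : ∀ p w : E n, vel g (p, op g p w) = w := fun p w => hio p w
  -- geodesics from a point
  have hgeo : ∀ p w : E n, IsGeo g (fun s => (φ s (p, op g p w)).1) ∧
      (∀ t, deriv (fun s => (φ s (p, op g p w)).1) t = vel g (φ t (p, op g p w))) ∧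
      ∀ t, g.val (φ t (p, op g p w)).1 (vel g (φ t (p, op g p w))) (vel g (φ t (p, op g p w)))
        = g.val p w w := by
    intro p w
    obtain ⟨q1, q2, q3⟩ := h3 n g hR (fun s => φ s (p, op g p w))
      (fun t => hφ.ode (p, op g p w) t)
    refine ⟨q1, q2, fun t => ?_⟩
    have e := q3 t
    rw [hHm, hHm, hφ.zero] at e
    simp only [hvel0] at e
    linarith
  obtain ⟨-, -, hexp, -, hexp0⟩ := h4 n g φ M hR hφ m
  set σ : ℝ → E n := fun t => (φ t (m, op g m u)).1 with hσ
  have hσe : ∀ t, σ t = expo φ g m (t • u) := fun t => hexp t u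
  obtain ⟨hσg, hσd, hσn⟩ := hgeo m u
  have hσ0 : σ 0 = m := by rw [hσe, zero_smul, hexp0]
  have hσu : ∀ t, g.val (σ t) (deriv σ t) (deriv σ t) = 1 := by
    intro t
    rw [hσd t, ← hu]
    exact hσn t
  have hσd0 : deriv σ 0 = u := by
    rw [hσd 0, hφ.zero, hvel0]
  set y : E n := expo φ g m (b • v) with hy
  obtain ⟨hbij, hgdy⟩ := hdist y
  obtain ⟨w, e1, e2, hw, he, he1, hf1, hf2⟩ := h11 n g φ M hR hφ y (hinj y) hbij σ hσg
  have hsymm := (h1 n g).2.1.symm
  have hgd : ∀ t, gd g y (σ t) = Real.sqrt (2 * (1 / 2 * g.val y (w t) (w t))) := by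
    intro t
    rw [← hw t, hgdy]
    unfold nrm
    congr 1
    ring
  have hmb : gd g m y = b := by
    rw [hy, (hdist m).2]
    unfold nrm
    have e : g.val m (b • v) (b • v) = b ^ 2 := by
      simp only [map_smul, smul_apply, smul_eq_mul]
      rw [hv]; ring
    rw [e, Real.sqrt_sq hb]
  have hma : gd g m (σ a) = a := by
    rw [hσe, (hdist m).2]
    unfold nrm
    have e : g.val m (a • u) (a • u) = a ^ 2 := by
      simp only [map_smul, smul_apply, smul_eq_mul]
      rw [hu]; ring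
    rw [e, Real.sqrt_sq ha]
  rw [← hσe a]
  rcases eq_or_lt_of_le hb with hb0 | hbpos
  · -- `b = 0`
    have hym : y = m := by rw [hy, ← hb0, zero_smul, hexp0]
    rw [hym, hsymm, hma, ← hb0]
    simp
  -- `b > 0`
  have hb2 : Real.sqrt (2 * (1 / 2 * g.val y (w 0) (w 0))) = b := by
    rw [← hgd 0, hσ0, hsymm, hmb]
  have he0 : 0 < 1 / 2 * g.val y (w 0) (w 0) := by
    by_contra hle
    rw [not_lt] at hle
    have : Real.sqrt (2 * (1 / 2 * g.val y (w 0) (w 0))) = 0 :=
      Real.sqrt_eq_zero_of_nonpos (by linarith)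
    rw [hb2] at this
    exact hbpos.ne' this
  have he10 : 0 ≤ e1 0 := by
    rw [hf1 0, hσ0, hσd0]
    have hw0 : expo φ g y (w 0) = m := by rw [hw 0, hσ0]
    have hrev := h12 n g φ M hR hφ m (b • v) (w 0) hbij.injective hw0
    rw [← hy] at hrev
    rw [hrev]
    have e : g.val m (-(b • v)) u = -(b * g.val m v u) := by
      simp only [map_neg, map_smul, neg_apply, smul_apply,
        smul_eq_mul]
    rw [e, g.symm m v u]
    nlinarith
  have hcomp : ∀ t, 0 ≤ e2 t ∧ (0 < 1 / 2 * g.val y (w t) (w t) →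
      e1 t ^ 2 / (2 * (1 / 2 * g.val y (w t) (w t))) +
      κ * Real.sqrt (2 * (1 / 2 * g.val y (w t) (w t))) *
        (Real.cosh (κ * Real.sqrt (2 * (1 / 2 * g.val y (w t) (w t)))) /
          Real.sinh (κ * Real.sqrt (2 * (1 / 2 * g.val y (w t) (w t))))) *
        (1 - e1 t ^ 2 / (2 * (1 / 2 * g.val y (w t) (w t)))) ≤ e2 t) := by
    intro t
    obtain ⟨J, hJ, hJ0, hJ1, hJe⟩ := hf2 t
    obtain ⟨hγ, hγd, hγn⟩ := hgeo y (w t)
    obtain ⟨k1, k2⟩ := h10 n g κ hR hκ hcur _ J hγ hJ hJ0
    have hγ1 : (φ 1 (y, op g y (w t))).1 = σ t := hw t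
    simp only [hγ1] at k1 k2
    rw [← hJe] at k2
    refine ⟨k2, fun hpos => ?_⟩
    set l : ℝ := Real.sqrt (2 * (1 / 2 * g.val y (w t) (w t))) with hl
    have hlpos : 0 < l := Real.sqrt_pos.2 (by linarith)
    have hl2 : l ^ 2 = 2 * (1 / 2 * g.val y (w t) (w t)) := Real.sq_sqrt (by linarith)
    have k3 := k1 l hlpos (fun s => by
      rw [hγd s, hl2]
      have := hγn s
      linarith)
    rw [hγd 1, ← hJe, hJ1, hσu t] at k3
    have e5 : g.val (σ t) (deriv σ t) (vel g (φ 1 (y, op g y (w t)))) = e1 t := by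
      rw [g.symm, hf1 t]
    rw [e5] at k3
    rw [← hl2]
    exact k3
  have hfin := h13 κ a (fun t => 1 / 2 * g.val y (w t) (w t)) e1 e2 hκ ha he he1 he0 he10
    (fun t => (hcomp t).1) (fun t => (hcomp t).2)
  beta_reduce at hfin
  rw [hb2, ← hgd a, hsymm, mul_comm] at hfin
  exact hfin

end Pool.Agent.MLS
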