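import Pool.Agent.Work.MP_25cd3b_gt.NG.Stmts

set_option autoImplicit false

/-!
# MP_25cd3b_gt, block NG, item Rev (helper70): reversal of geodesics
-/

open MeasureTheory Set Filter Topology
open scoped ContDiff ENNReal
open Pool.Agent.Work.MP_c9f990_an.Al (IsFlow)

namespace Pool.Agent.MLS

namespace INgRev

theorem deriv_rev {n : ℕ} (c : ℝ → E n) (t : ℝ) :
    deriv (fun s => c (1 - s)) t = -deriv c (1 - t) := by
  exact deriv_comp_const_sub c 1 t

/-- time reversal of geodesics. -/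
theorem geo_rev {n : ℕ} {g : Form n} {c : ℝ → E n} (h : IsGeo g c) :
    IsGeo g (fun s => c (1 - s)) := by
  refine ⟨h.smooth.comp (contDiff_const.sub contDiff_id), ?_⟩
  intro t w
  have h1 := h.el (1 - t) w
  have h2 : HasDerivAt (fun s : ℝ => 1 - s) (-1) t := by
    simpa using (hasDerivAt_id t).const_sub 1
  have h3 := (h1.comp t h2).neg
  have e1 : (fun s => g.val (c (1 - s)) (deriv (fun s => c (1 - s)) s) w) =
      -((fun s => g.val (c s) (deriv c s) w) ∘ fun s => 1 - s) := by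
    funext s
    rw [deriv_rev]
    simp
  rw [e1, deriv_rev]
  have e2 : 1 / 2 * fderiv ℝ g.val (c (1 - t)) w (-deriv c (1 - t)) (-deriv c (1 - t)) =
      -(1 / 2 * fderiv ℝ g.val (c (1 - t)) w (deriv c (1 - t)) (deriv c (1 - t)) * -1) := by
    rw [map_neg, map_neg]
    simp
  rw [e2]
  exact h3

end INgRev

theorem pr_NgRev (h1 : StOp) (h2 : StGeo1) (h4 : NcGx) : NgRev := by
  intro n g φ M hg hφ m V w hinj hw
  obtain ⟨-, -, hio, -, -, -, -, -, -⟩ := h1 n g hg
  obtain ⟨z, hz⟩ : ∃ z : W n, z = (m, op g m V) := ⟨_, rfl⟩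
  have hgeo := h2 n g hg (fun t => φ t z) (fun t => hφ.ode z t)
  obtain ⟨hc, hd, -⟩ := hgeo
  have hr := INgRev.geo_rev hc
  obtain ⟨hx1, hx2⟩ := h4 n g φ M hg hφ _ hr 0 1
  simp only [sub_self, sub_zero, one_smul] at hx1 hx2
  rw [hφ.zero] at hx1 hx2
  have e0 : (φ 1 z).1 = expo φ g m V := by
    rw [hz]
    rfl
  have ez : z.1 = m := by
    rw [hz]
  have e1 : deriv (fun s => (φ (1 - s) z).1) 1 = -V := by
    rw [INgRev.deriv_rev (fun s => (φ s z).1), hd, sub_self, hφ.zero, hz]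
    simp [vel, hio]
  rw [e0, ez] at hx1 hx2
  have e2 : w = deriv (fun s => (φ (1 - s) z).1) 0 := hinj (hw.trans hx2)
  rw [← e2, e1] at hx1
  rw [← hx1]
  simp [vel, hio]

end Pool.Agent.MLS
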