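import Pool.Agent.Work.MP_25cd3b_gt.NG.Stmts

set_option autoImplicit false

/-!
# MP_25cd3b_gt, block NG, item Sec: uniform bound for the sectional curvatures
-/

open MeasureTheory Set Filter Topology
open scoped ContDiff ENNReal

namespace Pool.Agent.MLS

namespace INgSec

theorem Rm_smul {n : ℕ} (g : Form n) (x u v w : E n) (s t r : ℝ) :
    Rm g x (s • u) (t • v) (r • w) = (s * t * r) • Rm g x u v w := by
  simp only [Rm, map_smul, smul_apply]
  module

theorem Rm_add2 {n : ℕ} (g : Form n) (x u v v' w : E n) :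
    Rm g x u (v + v') w = Rm g x u v w + Rm g x u v' w := by
  simp only [Rm, map_add, add_apply]
  abel

theorem Rm_add3 {n : ℕ} (g : Form n) (x u v w w' : E n) :
    Rm g x u v (w + w') = Rm g x u v w + Rm g x u v w' := by
  simp only [Rm, map_add]
  abel

theorem Kn_smul {n : ℕ} (g : Form n) (x u v : E n) (s t : ℝ) :
    Kn g x (s • u) (t • v) = s ^ 2 * t ^ 2 * Kn g x u v := by
  unfold Kn
  rw [Rm_smul]
  simp only [map_smul, smul_apply, smul_eq_mul]
  ring

theorem Rm_self {n : ℕ} (g : Form n) (h1 : ∀ x u v w, Rm g x u v w = -Rm g x v u w)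
    (x u w : E n) : Rm g x u u w = 0 := by
  have h := h1 x u u w
  have h' : (2 : ℝ) • Rm g x u u w = 0 := by
    rw [two_smul]
    nth_rewrite 2 [h]
    exact add_neg_cancel _
  exact (smul_eq_zero.1 h').resolve_left two_ne_zero

theorem Kn_add {n : ℕ} (g : Form n) (h1 : ∀ x u v w, Rm g x u v w = -Rm g x v u w)
    (h2 : ∀ x u v w, g.val x (Rm g x u v w) w = 0) (x u v : E n) (r : ℝ) :
    Kn g x u (v + r • u) = Kn g x u v := by
  unfold Kn
  have e0 : Rm g x u (r • u) (v + r • u) = 0 := by
    have := Rm_smul g x u u (v + r • u) 1 r 1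
    simp only [one_smul] at this
    rw [this, Rm_self g h1, smul_zero]
  have e1 : Rm g x u v (r • u) = r • Rm g x u v u := by
    have := Rm_smul g x u v u 1 1 r
    simpa only [one_smul, one_mul] using this
  rw [Rm_add2, e0, add_zero, Rm_add3, e1]
  simp only [map_add, add_apply, map_smul, smul_apply, smul_eq_mul]
  rw [h2 x u v u]
  ring

theorem Kn_zero_left {n : ℕ} (g : Form n) (x v : E n) : Kn g x 0 v = 0 := by
  unfold Kn
  simp

theorem Kn_zero_right {n : ℕ} (g : Form n) (x u : E n) : Kn g x u 0 = 0 := by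
  have := Kn_smul g x u 0 1 0
  simpa using this

/-- the bound for orthonormal pairs gives the bound for all pairs -/
theorem all_pairs {n : ℕ} (g : Form n) (hg : Riem g)
    (h1 : ∀ x u v w, Rm g x u v w = -Rm g x v u w)
    (h2 : ∀ x u v w, g.val x (Rm g x u v w) w = 0) (x : E n) (m : ℝ)
    (hm : ∀ u v : E n, g.val x u u = 1 → g.val x v v = 1 → g.val x u v = 0 → m ≤ -Kn g x u v)
    (u v : E n) : Kn g x u v ≤ -m * Ar g x u v := by
  by_cases hu : u = 0
  · subst hu
    rw [Kn_zero_left]
    simp [Ar]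
  · have ha : 0 < g.val x u u := hg x u hu
    obtain ⟨a, hadef⟩ : ∃ a, a = g.val x u u := ⟨_, rfl⟩
    rw [← hadef] at ha
    obtain ⟨r, hr⟩ : ∃ r, r = -(g.val x u v / a) := ⟨_, rfl⟩
    obtain ⟨v', hv'⟩ : ∃ v', v' = v + r • u := ⟨_, rfl⟩
    have hK : Kn g x u v' = Kn g x u v := by rw [hv', Kn_add g h1 h2]
    have huv' : g.val x u v' = 0 := by
      rw [hv']
      simp only [map_add, map_smul, smul_eq_mul]
      rw [hr, ← hadef]
      field_simp
      ring
    have hvv' : g.val x v' v' * a = Ar g x u v := by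
      unfold Ar
      rw [hv']
      simp only [map_add, add_apply, map_smul, smul_apply, smul_eq_mul]
      rw [hr, ← hadef, g.symm x v u]
      field_simp
      ring
    by_cases hv0 : v' = 0
    · rw [← hK, ← hvv', hv0, Kn_zero_right]
      simp
    · have hb : 0 < g.val x v' v' := hg x v' hv0
      obtain ⟨b, hbdef⟩ : ∃ b, b = g.val x v' v' := ⟨_, rfl⟩
      rw [← hbdef] at hb hvv'
      have hsa : Real.sqrt a ^ 2 = a := Real.sq_sqrt ha.le
      have hsb : Real.sqrt b ^ 2 = b := Real.sq_sqrt hb.le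
      have hsa0 : 0 < Real.sqrt a := Real.sqrt_pos.2 ha
      have hsb0 : 0 < Real.sqrt b := Real.sqrt_pos.2 hb
      have e1 : g.val x ((Real.sqrt a)⁻¹ • u) ((Real.sqrt a)⁻¹ • u) = 1 := by
        simp only [map_smul, smul_apply, smul_eq_mul]
        rw [← hadef]
        field_simp
        exact hsa.symm
      have e2 : g.val x ((Real.sqrt b)⁻¹ • v') ((Real.sqrt b)⁻¹ • v') = 1 := by
        simp only [map_smul, smul_apply, smul_eq_mul]
        rw [← hbdef]
        field_simp
        exact hsb.symm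
      have e3 : g.val x ((Real.sqrt a)⁻¹ • u) ((Real.sqrt b)⁻¹ • v') = 0 := by
        simp only [map_smul, smul_apply, smul_eq_mul]
        rw [huv']
        ring
      have h := hm _ _ e1 e2 e3
      rw [Kn_smul] at h
      have e4 : (Real.sqrt a)⁻¹ ^ 2 * (Real.sqrt b)⁻¹ ^ 2 * Kn g x u v' = Kn g x u v' / (a * b) := by
        rw [inv_pow, inv_pow, hsa, hsb]
        field_simp
      rw [e4] at h
      have h5 : m * (a * b) ≤ -Kn g x u v' := by
        have h6 : m ≤ (-Kn g x u v') / (a * b) := by rw [neg_div]; exact h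
        exact (le_div_iff₀ (mul_pos ha hb)).1 h6
      rw [← hK, ← hvv']
      nlinarith

theorem indep {n : ℕ} (g : Form n) (x u v : E n) (hu : g.val x u u = 1) (hv : g.val x v v = 1)
    (huv : g.val x u v = 0) : LinearIndependent ℝ ![u, v] := by
  rw [LinearIndependent.pair_iff]
  intro s t hst
  have hvu : g.val x v u = 0 := by rw [g.symm x v u]; exact huv
  have h1 : g.val x (s • u + t • v) u = 0 := by rw [hst]; simp
  have h2 : g.val x (s • u + t • v) v = 0 := by rw [hst]; simp
  simp only [map_add, add_apply, map_smul, smul_apply, smul_eq_mul, hu, hv, huv, hvu, mul_one,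
    mul_zero, add_zero, zero_add] at h1 h2
  exact ⟨h1, h2⟩

/-- orthonormal pairs over a compact set -/
theorem compact_on {n : ℕ} (h0 : StBnd) (g : Form n) (hg : Riem g) (K : Set (E n))
    (hK : IsCompact K) : IsCompact {q : E n × E n × E n | q.1 ∈ K ∧ g.val q.1 q.2.1 q.2.1 = 1 ∧
      g.val q.1 q.2.2 q.2.2 = 1 ∧ g.val q.1 q.2.1 q.2.2 = 0} := by
  obtain ⟨C, hC, hb⟩ := (h0 n g K hK).2 hg
  have hcomp : IsCompact (K ×ˢ (Metric.closedBall (0 : E n) C ×ˢ Metric.closedBall (0 : E n) C)) :=
    hK.prod ((isCompact_closedBall _ _).prod (isCompact_closedBall _ _))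
  have hg1 : Continuous fun q : E n × E n × E n => g.val q.1 := g.smooth.continuous.comp continuous_fst
  have hu : Continuous fun q : E n × E n × E n => q.2.1 := continuous_fst.comp continuous_snd
  have hv : Continuous fun q : E n × E n × E n => q.2.2 := continuous_snd.comp continuous_snd
  have c1 : Continuous fun q : E n × E n × E n => g.val q.1 q.2.1 q.2.1 :=
    (hg1.clm_apply hu).clm_apply hu
  have c2 : Continuous fun q : E n × E n × E n => g.val q.1 q.2.2 q.2.2 :=
    (hg1.clm_apply hv).clm_apply hv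
  have c3 : Continuous fun q : E n × E n × E n => g.val q.1 q.2.1 q.2.2 :=
    (hg1.clm_apply hu).clm_apply hv
  refine hcomp.of_isClosed_subset ?_ ?_
  · exact (hK.isClosed.preimage continuous_fst).inter ((isClosed_eq c1 continuous_const).inter
      ((isClosed_eq c2 continuous_const).inter (isClosed_eq c3 continuous_const)))
  · rintro ⟨x, u, v⟩ ⟨hx, h1, h2, -⟩
    simp only at hx h1 h2
    refine ⟨hx, ?_, ?_⟩
    · rw [mem_closedBall_zero_iff]
      have := hb x hx u
      simpa [nrm, h1] using this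
    · rw [mem_closedBall_zero_iff]
      have := hb x hx v
      simpa [nrm, h2] using this

end INgSec

open INgSec in
theorem pr_NgSec (h1 : StBnd) (h2 : NgAlg) (h3 : NgRN) : NgSec := by
  intro n G _ _ hG g hg hinv hneg
  obtain ⟨K, hK, hcov⟩ := hG.cocompact
  obtain ⟨ha1, ha2, ha3⟩ := h2 n g hg
  obtain ⟨m, hm, hm1⟩ := (compact_on h1 g hg K hK).exists_forall_le' (a := 0)
    (f := fun q : E n × E n × E n => -Kn g q.1 q.2.1 q.2.2) ha3.neg.continuousOn (by
      rintro ⟨x, u, v⟩ ⟨hx, e1, e2, e3⟩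
      have := hneg x u v (indep g x u v e1 e2 e3)
      simpa using this)
  have hsq : Real.sqrt m ^ 2 = m := Real.sq_sqrt hm.le
  refine ⟨Real.sqrt m, Real.sqrt_pos.2 hm, ?_⟩
  intro x u v
  rw [hsq]
  obtain ⟨a, ha⟩ := hcov x
  have hF : ContDiff ℝ ∞ (fun y : E n => a • y) := hG.smooth a
  have hiso : ∀ x u v, g.val ((fun y : E n => a • y) x) (fderiv ℝ (fun y : E n => a • y) x u)
      (fderiv ℝ (fun y : E n => a • y) x v) = g.val x u v := fun x u v => hinv a x u v
  have hK' : Kn g (a • x) (dac a x u) (dac a x v) = Kn g x u v := by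
    have h := h3 n g (fun y : E n => a • y) hg hF hiso x u v v
    unfold Kn dac
    have h' : Rm g (a • x) (fderiv ℝ (fun y : E n => a • y) x u)
        (fderiv ℝ (fun y : E n => a • y) x v) (fderiv ℝ (fun y : E n => a • y) x v) =
        fderiv ℝ (fun y : E n => a • y) x (Rm g x u v v) := h.symm
    rw [h']
    exact hinv a x _ _
  have hA' : Ar g (a • x) (dac a x u) (dac a x v) = Ar g x u v := by
    unfold Ar
    rw [hinv, hinv, hinv]
  rw [← hK', ← hA']
  refine all_pairs g hg ha1 ha2 (a • x) m ?_ _ _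
  intro u' v' e1 e2 e3
  exact hm1 (a • x, u', v') ⟨ha, e1, e2, e3⟩

end Pool.Agent.MLS
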