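import Pool.Agent.Work.MP_25cd3b_gt.M.All
import Pool.Agent.Work.MP_25cd3b_gt.NC.I_Bd
import Pool.Agent.Work.MP_25cd3b_gt.NC.I_Cov
import Pool.Agent.Work.MP_25cd3b_gt.NC.I_Dist
import Pool.Agent.Work.MP_25cd3b_gt.NC.I_Exp
import Pool.Agent.Work.MP_25cd3b_gt.NC.I_Ga
import Pool.Agent.Work.MP_25cd3b_gt.NC.I_Gauss
import Pool.Agent.Work.MP_25cd3b_gt.NC.I_Geo
import Pool.Agent.Work.MP_25cd3b_gt.NC.I_Gx
import Pool.Agent.Work.MP_25cd3b_gt.NC.I_Inj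
import Pool.Agent.Work.MP_25cd3b_gt.NC.I_Le
import Pool.Agent.Work.MP_25cd3b_gt.NC.I_Lf
import Pool.Agent.Work.MP_25cd3b_gt.NC.I_Lift
import Pool.Agent.Work.MP_25cd3b_gt.NC.I_Lin
import Pool.Agent.Work.MP_25cd3b_gt.NC.I_Loc
import Pool.Agent.Work.MP_25cd3b_gt.NC.I_Minz
import Pool.Agent.Work.MP_25cd3b_gt.NC.I_One
import Pool.Agent.Work.MP_25cd3b_gt.NC.I_Spr
import Pool.Agent.Work.MP_25cd3b_gt.NG.I_Alg
import Pool.Agent.Work.MP_25cd3b_gt.NG.I_GaN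
import Pool.Agent.Work.MP_25cd3b_gt.NG.I_Jc
import Pool.Agent.Work.MP_25cd3b_gt.NG.I_Met
import Pool.Agent.Work.MP_25cd3b_gt.NG.I_NoC
import Pool.Agent.Work.MP_25cd3b_gt.NG.I_Ode
import Pool.Agent.Work.MP_25cd3b_gt.NG.I_Pt
import Pool.Agent.Work.MP_25cd3b_gt.NG.I_RN
import Pool.Agent.Work.MP_25cd3b_gt.NG.I_RT
import Pool.Agent.Work.MP_25cd3b_gt.NG.I_Rev
import Pool.Agent.Work.MP_25cd3b_gt.NG.I_Sec
import Pool.Agent.Work.MP_25cd3b_gt.NG.I_Var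

set_option autoImplicit false

/-!
# MP_25cd3b_gt: blocks NC and NG assembled
-/

open MeasureTheory Set Filter Topology

namespace Pool.Agent.MLS

theorem p_NcGa : NcGa := pr_NcGa pr_Op
theorem p_NcGeo : NcGeo := pr_NcGeo p_NcGa
theorem p_NcSpr : NcSpr := pr_NcSpr pr_Op p_Geo1 p_NcGeo
theorem p_NcLin : NcLin := pr_NcLin pr_Op p_Hd pr_Tr0 p_NcGa p_NcSpr
theorem p_NcCov : NcCov := pr_NcCov p_NcGa p_NcGeo
theorem p_NcExp : NcExp := pr_NcExp pr_Op p_Hd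
theorem p_NcGauss : NcGauss := pr_NcGauss pr_Op p_Hd pr_Tr0 p_Geo1 p_NcExp
theorem p_NcInj : NcInj := pr_NcInj pr_Op p_Geo1 p_NcLin p_NcCov p_NcExp
theorem p_NcBd : NcBd := pr_NcBd pr_NcLoc p_NcExp p_NcGauss
theorem p_NcLf : NcLf := pr_NcLf pr_Bnd p_NcExp pr_NcLoc pr_NcLift p_NcBd
theorem p_NcLe : NcLe := pr_NcLe p_NcLf
theorem p_NcOne : NcOne := pr_NcOne p_NcExp pr_NcLoc p_NcLf
theorem p_NcDist : NcDist := pr_NcDist pr_Gd pr_Op p_Geo1 p_NcExp p_NcLe p_NcOne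
theorem p_NcGx : NcGx := pr_NcGx p_Geo2 p_NcExp
theorem p_NcMinz : NcMinz := pr_NcMinz p_NcInj p_NcDist p_NcGx
theorem p_NC : StNC := pr_StNC p_Flow p_NcMinz

theorem p_NgMet : NgMet := pr_NgMet p_NcGa p_NcGeo
theorem p_NgAlg : NgAlg := pr_NgAlg p_NcGa p_NgMet
theorem p_NgGaN : NgGaN := pr_NgGaN p_NcGa
theorem p_NgRN : NgRN := pr_NgRN p_NcGa p_NgGaN
theorem p_NgSec : NgSec := pr_NgSec pr_Bnd p_NgAlg p_NgRN
theorem p_NgNoC : NgNoC := pr_NgNoC p_NcGa p_NgMet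
theorem p_NgJc : NgJc := pr_NgJc p_NcGa p_NcGeo p_NgMet p_NgAlg
theorem p_NgVar : NgVar := pr_NgVar pr_Op p_Geo1 p_NcGa p_NcLin p_NcCov p_NcExp pr_NcLoc p_NgMet
  p_NcGauss
theorem p_NgRev : NgRev := pr_NgRev pr_Op p_Geo1 p_NcGx
theorem p_NgRT : NgRT := pr_NgRT pr_Gd pr_Op p_Geo1 p_NcExp p_NcInj p_NcDist p_NgNoC p_NgJc
  p_NgVar p_NgRev pr_NgOde
theorem p_NgPt : NgPt := pr_NgPt pr_Gd pr_Op p_Geo1 p_NcExp p_NcInj p_NcDist p_NcGx p_NgNoC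
  p_NgVar p_NgRev p_NgRT

/-- Closed manifolds of negative curvature have no conjugate points and a Gromov hyperbolic
universal covering. -/
theorem p_NgThm : NgThm := by
  intro n G _ _ hG g hg hi hs
  obtain ⟨κ, hκ, hc⟩ := p_NgSec n G hG g hg hi hs
  obtain ⟨φ, M, hφ⟩ := p_Flow n G hG g hg hi
  have h0 : CurvLe g 0 := by
    intro x u v
    have h1 := hc x u v
    have h2 : 0 ≤ κ ^ 2 * Ar g x u v := mul_nonneg (sq_nonneg κ) (INgPt.ar_nonneg g x u v)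
    have h3 : -(0 : ℝ) ^ 2 * Ar g x u v = 0 := by ring
    linarith
  exact ⟨p_NC n G hG g hg hi (p_NgNoC n g hg h0), _, p_NgPt n g φ M κ hg hφ hκ hc⟩

end Pool.Agent.MLS
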