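import Pool.Agent.Work.MP_25cd3b_gt.NC.Defs

set_option autoImplicit false

/-!
# Sectional curvature
-/

open MeasureTheory Set Filter Topology
open scoped ContDiff ENNReal

namespace Pool.Agent.MLS

/-- numerator `g (R(u, v) v, u)` of the sectional curvature of the plane of `u` and `v` -/
noncomputable def Kn {n : ℕ} (g : Form n) (x u v : E n) : ℝ := g.val x (Rm g x u v v) u

/-- square of the area of the parallelogram of `u` and `v` -/
noncomputable def Ar {n : ℕ} (g : Form n) (x u v : E n) : ℝ :=
  g.val x u u * g.val x v v - g.val x u v ^ 2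

/-- all sectional curvatures are negative -/
def NegSec {n : ℕ} (g : Form n) : Prop :=
  ∀ x u v, LinearIndependent ℝ ![u, v] → Kn g x u v < 0

/-- all sectional curvatures are at most `-κ^2` -/
def CurvLe {n : ℕ} (g : Form n) (κ : ℝ) : Prop := ∀ x u v, Kn g x u v ≤ -κ ^ 2 * Ar g x u v

end Pool.Agent.MLS
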