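import Pool.Agent.Work.MP_25cd3b_gt.NG.Stmts

set_option autoImplicit false

/-!
# Naturality of the Christoffel symbols (item NgGaN)
-/

open MeasureTheory Set Filter Topology
open scoped ContDiff ENNReal

namespace Pool.Agent.MLS

namespace INgGaN

/-- derivative of the invariance equation -/
theorem diff_inv {n : ℕ} (g : Form n) (F : E n → E n) (hF : ContDiff ℝ ∞ F)
    (hg : ∀ x u v, g.val (F x) (fderiv ℝ F x u) (fderiv ℝ F x v) = g.val x u v) (x u v w : E n) :
    fderiv ℝ g.val (F x) (fderiv ℝ F x u) (fderiv ℝ F x v) (fderiv ℝ F x w) +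
      g.val (F x) (fderiv ℝ (fderiv ℝ F) x u v) (fderiv ℝ F x w) +
      g.val (F x) (fderiv ℝ F x v) (fderiv ℝ (fderiv ℝ F) x u w) = fderiv ℝ g.val x u v w := by
  have hl : HasDerivAt (fun s : ℝ => x + s • u) u 0 := by
    simpa using ((hasDerivAt_id (0 : ℝ)).smul_const u).const_add x
  have hF1 : ∀ y, HasFDerivAt F (fderiv ℝ F y) y := fun y =>
    (hF.differentiable (by simp) y).hasFDerivAt
  have hF2c : ContDiff ℝ ∞ (fderiv ℝ F) := hF.fderiv_right (by norm_num)
  have hF2 : ∀ y, HasFDerivAt (fderiv ℝ F) (fderiv ℝ (fderiv ℝ F) y) y := fun y =>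
    (hF2c.differentiable (by simp) y).hasFDerivAt
  have hgd : ∀ y, HasFDerivAt g.val (fderiv ℝ g.val y) y := fun y =>
    (g.smooth.differentiable (by simp) y).hasFDerivAt
  have e0 : x + (0 : ℝ) • u = x := by simp
  have hFl : HasDerivAt (fun s : ℝ => F (x + s • u)) (fderiv ℝ F x u) 0 := by
    have h := hF1 (x + (0 : ℝ) • u)
    have h2 := h.comp_hasDerivAt (0 : ℝ) hl
    rw [e0] at h2
    exact h2
  have hDl : HasDerivAt (fun s : ℝ => fderiv ℝ F (x + s • u)) (fderiv ℝ (fderiv ℝ F) x u) 0 := by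
    have h := hF2 (x + (0 : ℝ) • u)
    have h2 := h.comp_hasDerivAt (0 : ℝ) hl
    rw [e0] at h2
    exact h2
  have hgl : HasDerivAt (fun s : ℝ => g.val (x + s • u)) (fderiv ℝ g.val x u) 0 := by
    have h := hgd (x + (0 : ℝ) • u)
    have h2 := HasFDerivAt.comp_hasDerivAt (l := g.val) (f := fun s : ℝ => x + s • u) (0 : ℝ) h hl
    rw [e0] at h2
    exact h2
  have hgF : HasDerivAt (fun s : ℝ => g.val (F (x + s • u)))
      (fderiv ℝ g.val (F x) (fderiv ℝ F x u)) 0 := by
    have h := hgd (F (x + (0 : ℝ) • u))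
    have h2 := HasFDerivAt.comp_hasDerivAt (l := g.val) (f := fun s : ℝ => F (x + s • u))
      (0 : ℝ) h hFl
    rw [e0] at h2
    exact h2
  have hDv : ∀ v : E n, HasDerivAt (fun s : ℝ => fderiv ℝ F (x + s • u) v)
      (fderiv ℝ (fderiv ℝ F) x u v) 0 := fun v => by
    have h := hDl.clm_apply (hasDerivAt_const (0 : ℝ) v)
    simpa using h
  have hL : HasDerivAt (fun s : ℝ => g.val (x + s • u) v w) (fderiv ℝ g.val x u v w) 0 := by
    have h := (hgl.clm_apply (hasDerivAt_const (0 : ℝ) v)).clm_apply (hasDerivAt_const (0 : ℝ) w)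
    simpa using h
  have hR : HasDerivAt (fun s : ℝ => g.val (F (x + s • u)) (fderiv ℝ F (x + s • u) v)
      (fderiv ℝ F (x + s • u) w))
      ((fderiv ℝ g.val (F x) (fderiv ℝ F x u) (fderiv ℝ F x v) +
        g.val (F x) (fderiv ℝ (fderiv ℝ F) x u v)) (fderiv ℝ F x w) +
        g.val (F x) (fderiv ℝ F x v) (fderiv ℝ (fderiv ℝ F) x u w)) 0 := by
    have h := (hgF.clm_apply (hDv v)).clm_apply (hDv w)
    simp only [e0] at h
    exact h
  have hE : (fun s : ℝ => g.val (F (x + s • u)) (fderiv ℝ F (x + s • u) v)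
      (fderiv ℝ F (x + s • u) w)) = fun s : ℝ => g.val (x + s • u) v w := by
    funext s
    exact hg _ _ _
  rw [hE] at hR
  have h := hR.unique hL
  rw [← h, add_apply]

/-- the second derivative is symmetric -/
theorem d2_symm {n : ℕ} (F : E n → E n) (hF : ContDiff ℝ ∞ F) (x u v : E n) :
    fderiv ℝ (fderiv ℝ F) x u v = fderiv ℝ (fderiv ℝ F) x v u := by
  have hF2c : ContDiff ℝ ∞ (fderiv ℝ F) := hF.fderiv_right (by norm_num)
  exact second_derivative_symmetric
    (fun y => (hF.differentiable (by simp) y).hasFDerivAt)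
    (hF2c.differentiable (by simp) x).hasFDerivAt u v

end INgGaN

open INgGaN in
/-- item NgGaN -/
theorem pr_NgGaN (h1 : NcGa) : NgGaN := by
  intro n g F hR hF hg x u v
  obtain ⟨-, -, -, hK⟩ := h1 n g hR
  have hinj : Function.Injective (fderiv ℝ F x) := by
    rw [injective_iff_map_eq_zero]
    intro a ha
    by_contra hne
    have h2 := hR x a hne
    rw [← hg x a a, ha] at h2
    simp at h2
  have hsurj : Function.Surjective (fderiv ℝ F x) := by
    have h := LinearMap.injective_iff_surjective (f := ((fderiv ℝ F x : E n →L[ℝ] E n) : E n →ₗ[ℝ] E n))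
    exact h.1 hinj
  have key : ∀ w, g.val (F x) (fderiv ℝ F x (Ga g x u v)) (fderiv ℝ F x w) =
      g.val (F x) (fderiv ℝ (fderiv ℝ F) x u v) (fderiv ℝ F x w) +
      g.val (F x) (Ga g (F x) (fderiv ℝ F x u) (fderiv ℝ F x v)) (fderiv ℝ F x w) := by
    intro w
    rw [hg, hK, hK]
    have a1 := diff_inv g F hF hg x u v w
    have a2 := diff_inv g F hF hg x v u w
    have a3 := diff_inv g F hF hg x w u v
    have s1 := d2_symm F hF x v u
    have s2 := d2_symm F hF x w u
    have s3 := d2_symm F hF x w v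
    rw [s1] at a2
    rw [s2, s3] at a3
    have t1 := g.symm (F x) (fderiv ℝ (fderiv ℝ F) x u w) (fderiv ℝ F x v)
    rw [← a1, ← a2, ← a3, t1]
    ring
  set z : E n := fderiv ℝ F x (Ga g x u v) - (fderiv ℝ (fderiv ℝ F) x u v +
    Ga g (F x) (fderiv ℝ F x u) (fderiv ℝ F x v)) with hz
  obtain ⟨w, hw⟩ := hsurj z
  have h0 : g.val (F x) z z = 0 := by
    have h := key w
    rw [hw] at h
    have e : g.val (F x) z z = g.val (F x) (fderiv ℝ F x (Ga g x u v)) z -
        (g.val (F x) (fderiv ℝ (fderiv ℝ F) x u v) z +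
        g.val (F x) (Ga g (F x) (fderiv ℝ F x u) (fderiv ℝ F x v)) z) := by
      have e2 : g.val (F x) z = g.val (F x) (fderiv ℝ F x (Ga g x u v)) -
          (g.val (F x) (fderiv ℝ (fderiv ℝ F) x u v) +
          g.val (F x) (Ga g (F x) (fderiv ℝ F x u) (fderiv ℝ F x v))) := by
        rw [hz, map_sub, map_add]
      rw [e2, sub_apply, add_apply]
    rw [e, h, sub_self]
  have hz0 : z = 0 := by
    by_contra hne
    have := hR (F x) z hne
    linarith
  rw [hz] at hz0
  exact sub_eq_zero.1 hz0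

end Pool.Agent.MLS
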