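import Mathlib
import Pool.Agent.Work.MP_25cd3b_gt.NG.Stmts

set_option autoImplicit false
set_option maxSynthPendingDepth 3

/-!
# Item Var: first and second variation
-/

open MeasureTheory Set Filter Topology
open scoped ContDiff ENNReal
open Pool.Agent.Work.MP_c9f990_an.Al (IsFlow)

namespace Pool.Agent.MLS

namespace INgVar

lemma diff_deriv {n : ℕ} {σ : ℝ → E n} (h : ContDiff ℝ 2 σ) : Differentiable ℝ (deriv σ) := by
  have h5 : ContDiff ℝ 1 (deriv σ) := by
    have h6 : ContDiff ℝ (1 + 1) σ := by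
      norm_num
      exact h
    exact (contDiff_succ_iff_deriv.mp h6).2.2
  exact h5.differentiable (by norm_num)

end INgVar

open INgVar in
theorem pr_NgVar (h1 : StOp) (h4 : StGeo1) (h5 : NcGa) (h7 : NcLin) (h8 : NcCov) (h9 : NcExp)
    (h10 : NcLoc) (h11 : NgMet) (h12 : NcGauss) : NgVar := by
  intro n g φ M hg hf y hinj hbij σ hσ
  obtain ⟨-, -, -, -, -, -, hi, -, -⟩ := h1 n g hg
  obtain ⟨-, -, hsymG, -⟩ := h5 n g hg
  obtain ⟨hEC, hE2, -, hE4, -⟩ := h9 n g φ M hg hf y
  obtain ⟨hloc, hlift⟩ := h10 n (expo φ g y) hEC hinj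
  obtain ⟨-, hprod, hgeo⟩ := h11 n g hg
  have hvel : Differentiable ℝ (vel g) := by
    have h : ContDiff ℝ ∞ (fun z : W n => iop g z.1 z.2) :=
      (hi.comp contDiff_fst).clm_apply contDiff_snd
    exact h.differentiable (by simp)
  have dσ : Differentiable ℝ σ := hσ.smooth.differentiable (by norm_num)
  have dσ' : Differentiable ℝ (deriv σ) := diff_deriv hσ.smooth
  -- the lift
  let H := hloc.toHomeomorphOfBijective hbij
  let w : ℝ → E n := fun t => H.symm (σ t)
  have hw : ∀ t, expo φ g y (w t) = σ t := fun t => H.apply_symm_apply (σ t)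
  have hwc : Continuous w := H.symm.continuous.comp dσ.continuous
  have hwd : ∀ t, HasDerivAt w (deriv w t) t ∧
      fderiv ℝ (expo φ g y) (w t) (deriv w t) = deriv σ t := by
    intro t
    obtain ⟨w', hw1, hw2⟩ := hlift σ w t dσ hwc.continuousAt (Eventually.of_forall hw)
    have : deriv w t = w' := hw1.deriv
    rw [this]
    exact ⟨hw1, hw2⟩
  -- phase space
  let Z : ℝ → W n := fun t => (y, op g y (w t))
  let V : ℝ → E n := fun t => vel g (φ 1 (Z t))
  have hZ : ∀ t, HasDerivAt Z ((0 : E n), op g y (deriv w t)) t := by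
    intro t
    have h13 : HasDerivAt (fun t => op g y (w t)) (op g y (deriv w t)) t :=
      (op g y).hasFDerivAt.comp_hasDerivAt t (hwd t).1
    exact (hasDerivAt_const t y).prodMk h13
  have hV : ∀ t, HasDerivAt V
      (fderiv ℝ (vel g) (φ 1 (Z t)) (M 1 (Z t) ((0 : E n), op g y (deriv w t)))) t := by
    intro t
    have h14 : HasDerivAt (fun t => φ 1 (Z t)) (M 1 (Z t) ((0 : E n), op g y (deriv w t))) t :=
      (hf.diff 1 (Z t)).comp_hasDerivAt t (hZ t)
    exact (hvel (φ 1 (Z t))).hasFDerivAt.comp_hasDerivAt t h14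
  -- Jacobi fields
  let c : ℝ → ℝ → E n := fun t s => (φ s (Z t)).1
  let J : ℝ → ℝ → E n := fun t s => (M s (Z t) ((0 : E n), op g y (deriv w t))).1
  have hc1 : ∀ t, c t 1 = σ t := fun t => hw t
  have hcd : ∀ t s, deriv (c t) s = vel g (φ s (Z t)) := by
    intro t s
    exact (h4 n g hg (fun s => φ s (Z t)) (fun s => hf.ode (Z t) s)).2.1 s
  have hJ1 : ∀ t, J t 1 = deriv σ t := by
    intro t
    have h15 := hE2 (w t) (deriv w t)
    rw [(hwd t).2] at h15
    exact h15.symm
  have hJ0 : ∀ t, J t 0 = 0 := by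
    intro t
    show (M 0 (Z t) ((0 : E n), op g y (deriv w t))).1 = 0
    rw [hf.M0]
    rfl
  have hJac : ∀ t, IsJac g (c t) (J t) := by
    intro t
    obtain ⟨geo, dv, -⟩ := h4 n g hg (fun s => φ s (Z t)) (fun s => hf.ode (Z t) s)
    obtain ⟨cd, d1, d2⟩ := h7 n g φ M hg hf (Z t) ((0 : E n), op g y (deriv w t))
    refine h8 n g hg _ _ geo cd (fun s => ?_)
    have h := d2 s
    rw [← dv s] at h
    exact h
  have hJd : ∀ t, deriv (J t) 1 =
      fderiv ℝ (vel g) (φ 1 (Z t)) (M 1 (Z t) ((0 : E n), op g y (deriv w t))) := by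
    intro t
    exact (h7 n g φ M hg hf (Z t) ((0 : E n), op g y (deriv w t))).2.1 1
  have hcov : ∀ t, cov g (c t) (J t) 1 = cov g σ V t := by
    intro t
    unfold cov
    rw [hJd t, (hV t).deriv, hc1 t, hcd t 1, hJ1 t]
    rw [hsymG (σ t) (deriv σ t) (V t)]
  refine ⟨w, fun t => g.val (σ t) (V t) (deriv σ t),
    fun t => g.val (σ t) (cov g (c t) (J t) 1) (J t 1), hw, ?_, ?_, fun t => rfl, ?_⟩
  · intro t
    have h16 : HasDerivAt (fun s => g.val y (w s)) (g.val y (deriv w t)) t :=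
      (g.val y).hasFDerivAt.comp_hasDerivAt t (hwd t).1
    have h17 := (h16.clm_apply (hwd t).1).const_mul (1 / 2 : ℝ)
    refine h17.congr_deriv ?_
    have h18 := h12 n g φ M hg hf y (w t) (deriv w t)
    rw [← hE4 (w t), (hwd t).2, hw t] at h18
    have h19 : g.val (σ t) (V t) (deriv σ t) = g.val y (w t) (deriv w t) := h18
    simp only [h19, g.symm y (deriv w t) (w t)]
    ring
  · intro t
    have h20 := hprod σ V (deriv σ) t (dσ t) (hV t).differentiableAt (dσ' t)
    rw [hgeo σ hσ t] at h20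
    refine h20.congr_deriv ?_
    simp only [hcov t, hJ1 t, map_zero, add_zero]
  · intro t
    exact ⟨J t, hJac t, hJ0 t, hJ1 t, rfl⟩

end Pool.Agent.MLS
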